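import Mathlib
import Pool.Agent.TH119.MX.Poly

/-!
# Torsors defined over a subfield of the complex numbers and their tangent spaces
-/

set_option linter.unusedSectionVars false

namespace Pool.Agent.TH119.TO

open Finset Matrix Pool.Agent.W437.HK Pool.Agent.TH119.DR Pool.Agent.TH119.MX

variable {B : Type*} [Fintype B] [DecidableEq B]

/-- The homogeneous coordinates of a tangent vector. -/
def cx0 (x : Matrix B B ℂ) : Option (B × B) → ℂ := fun o => o.elim 0 (fun p => x p.1 p.2)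

theorem cx0_add (x y : Matrix B B ℂ) : cx0 (x + y) = cx0 x + cx0 y := by
  funext o
  rcases o with _ | ⟨i, j⟩
  · simp [cx0]
  · simp [cx0]

theorem cx0_smul (a : ℂ) (x : Matrix B B ℂ) : cx0 (a • x) = a • cx0 x := by
  funext o
  rcases o with _ | ⟨i, j⟩
  · simp [cx0]
  · simp [cx0]

theorem MM_mulVec0 (g x : Matrix B B ℂ) : MM g *ᵥ cx0 x = cx0 (x * g) := by
  funext o
  rcases o with _ | ⟨i, j⟩
  · simp only [mulVec, dotProduct, MM, cx0, Matrix.of_apply, Option.elim_none]
    rw [Fintype.sum_option]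
    simp
  · simp only [mulVec, dotProduct, MM, cx0, Matrix.of_apply, Option.elim_some]
    rw [Fintype.sum_option, Fintype.sum_prod_type, Matrix.mul_apply]
    simp only [Option.elim_none, mul_zero, Option.elim_some, zero_add, ite_mul, zero_mul]
    rw [Finset.sum_comm]
    refine Finset.sum_congr rfl fun k _ => ?_
    rw [Finset.sum_ite_eq Finset.univ i]
    simp [mul_comm]

theorem LL_mulVec (X x : Matrix B B ℂ) : LL X *ᵥ cx x = cx0 (x * X) := by
  funext o
  rcases o with _ | ⟨i, j⟩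
  · simp only [mulVec, dotProduct, LL, cx0, Matrix.of_apply, Option.elim_none]
    simp
  · simp only [mulVec, dotProduct, LL, cx0, cx, Matrix.of_apply, Option.elim_some]
    rw [Fintype.sum_option, Fintype.sum_prod_type, Matrix.mul_apply]
    simp only [Option.elim_none, zero_mul, Option.elim_some, zero_add, ite_mul]
    rw [Finset.sum_comm]
    refine Finset.sum_congr rfl fun k _ => ?_
    rw [Finset.sum_ite_eq Finset.univ i]
    simp [mul_comm]

/-- The transposition on the coordinates. -/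
def TT : Matrix (Option (B × B)) (Option (B × B)) ℂ := Matrix.of fun o o' =>
  if o' = o.map Prod.swap then 1 else 0

theorem TT_mulVec (x : Matrix B B ℂ) : TT *ᵥ cx x = cx xᵀ := by
  funext o
  simp only [mulVec, dotProduct, TT, Matrix.of_apply, ite_mul, one_mul, zero_mul]
  rw [Finset.sum_ite_eq' Finset.univ (o.map Prod.swap), if_pos (Finset.mem_univ _)]
  rcases o with _ | ⟨i, j⟩ <;> rfl

theorem TT_mulVec0 (x : Matrix B B ℂ) : TT *ᵥ cx0 x = cx0 xᵀ := by
  funext o
  simp only [mulVec, dotProduct, TT, Matrix.of_apply, ite_mul, one_mul, zero_mul]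
  rw [Finset.sum_ite_eq' Finset.univ (o.map Prod.swap), if_pos (Finset.mem_univ _)]
  rcases o with _ | ⟨i, j⟩ <;> rfl

/-- The multiplication from the left. -/
noncomputable def NN (g : Matrix B B ℂ) : Matrix (Option (B × B)) (Option (B × B)) ℂ :=
  TT * MM gᵀ * TT

theorem NN_mulVec (g x : Matrix B B ℂ) : NN g *ᵥ cx x = cx (g * x) := by
  unfold NN
  rw [← Matrix.mulVec_mulVec, TT_mulVec, ← Matrix.mulVec_mulVec, MM_mulVec, TT_mulVec,
    Matrix.transpose_mul, Matrix.transpose_transpose, Matrix.transpose_transpose]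

theorem NN_mulVec0 (g x : Matrix B B ℂ) : NN g *ᵥ cx0 x = cx0 (g * x) := by
  unfold NN
  rw [← Matrix.mulVec_mulVec, TT_mulVec0, ← Matrix.mulVec_mulVec, MM_mulVec0, TT_mulVec0,
    Matrix.transpose_mul, Matrix.transpose_transpose, Matrix.transpose_transpose]

/-- The derivative of a tensor at `Z` in the direction `V`. -/
noncomputable def Dv {d : ℕ} (w : (Fin d → Option (B × B)) → ℂ) (Z V : Matrix B B ℂ) : ℂ :=
  ∑ k, evalF w (Function.update (fun _ => cx Z) k (cx0 V))

theorem Dv_act {d : ℕ} (w : (Fin d → Option (B × B)) → ℂ) (Z X : Matrix B B ℂ) :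
    evalF (act (LL X) w) (fun _ => cx Z) = Dv w Z (Z * X) := by
  rw [evalF_act]
  unfold Dv
  rw [LL_mulVec]

theorem Dv_pull {d : ℕ} (w : (Fin d → Option (B × B)) → ℂ)
    {R : Matrix (Option (B × B)) (Option (B × B)) ℂ} {Z V Z' V' : Matrix B B ℂ}
    (h1 : R *ᵥ cx Z = cx Z') (h2 : R *ᵥ cx0 V = cx0 V') : Dv (pull R w) Z V = Dv w Z' V' := by
  unfold Dv
  refine Finset.sum_congr rfl fun k _ => ?_
  rw [evalF_pull]
  congr 1
  funext l
  by_cases hl : l = k
  · subst hl
    rw [Function.update_self, Function.update_self, h2]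
  · rw [Function.update_of_ne hl, Function.update_of_ne hl, h1]

theorem Dv_add {d : ℕ} (w : (Fin d → Option (B × B)) → ℂ) (Z V V' : Matrix B B ℂ) :
    Dv w Z (V + V') = Dv w Z V + Dv w Z V' := by
  unfold Dv
  rw [cx0_add, ← Finset.sum_add_distrib]
  exact Finset.sum_congr rfl fun k _ => evalF_update_add _ _ _ _ _

theorem Dv_smul {d : ℕ} (w : (Fin d → Option (B × B)) → ℂ) (Z V : Matrix B B ℂ) (a : ℂ) :
    Dv w Z (a • V) = a * Dv w Z V := by
  unfold Dv
  rw [cx0_smul, Finset.mul_sum]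
  exact Finset.sum_congr rfl fun k _ => evalF_update_smul _ _ _ _ _

theorem Dv_add_left {d : ℕ} (w w' : (Fin d → Option (B × B)) → ℂ) (Z V : Matrix B B ℂ) :
    Dv (w + w') Z V = Dv w Z V + Dv w' Z V := by
  unfold Dv
  rw [← Finset.sum_add_distrib]
  exact Finset.sum_congr rfl fun k _ => evalF_add' _ _ _

theorem Dv_smul_left {d : ℕ} (a : ℂ) (w : (Fin d → Option (B × B)) → ℂ) (Z V : Matrix B B ℂ) :
    Dv (a • w) Z V = a * Dv w Z V := by
  unfold Dv
  rw [Finset.mul_sum]
  exact Finset.sum_congr rfl fun k _ => evalF_smul' _ _ _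

/-- A subtorsor of the torsor of all isomorphisms, defined over `K`. -/
structure Tors (K : Subfield ℂ) (T : Set (Matrix B B ℂ)) : Prop where
  inv : ∀ x ∈ T, ∃ y, x * y = 1 ∧ y * x = 1
  tri : ∀ x ∈ T, ∀ y ∈ T, ∀ z ∈ T, ∀ y', y * y' = 1 → y' * y = 1 → x * y' * z ∈ T
  alg : ∃ I : Set (MvPolynomial (B × B) ℂ), (∀ p ∈ I, ∀ m, p.coeff m ∈ K) ∧
    ∀ g : Matrix B B ℂ, g ∈ T ↔ (∃ g' : Matrix B B ℂ, g * g' = 1 ∧ g' * g = 1) ∧
      ∀ p ∈ I, MvPolynomial.eval (fun b => g b.1 b.2) p = 0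

variable {K : Subfield ℂ} {T : Set (Matrix B B ℂ)}

theorem Tors.map_aut (hT : Tors K T) {σ : ℂ ≃+* ℂ} (hσ : ∀ x ∈ K, σ x = x)
    {h : Matrix B B ℂ} (hh : h ∈ T) : h.map σ ∈ T := by
  obtain ⟨I, hI, hI2⟩ := hT.alg
  obtain ⟨⟨g', h1, h2⟩, h3⟩ := (hI2 h).1 hh
  refine (hI2 _).2 ⟨⟨g'.map σ, ?_, ?_⟩, fun p hp => ?_⟩
  · rw [← Matrix.map_mul, h1, Matrix.map_one _ (map_zero σ) (map_one σ)]
  · rw [← Matrix.map_mul, h2, Matrix.map_one _ (map_zero σ) (map_one σ)]
  · have h4 := congrArg σ (h3 p hp)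
    rw [map_zero, MvPolynomial.eval_eq, map_sum] at h4
    rw [MvPolynomial.eval_eq, ← h4]
    refine Finset.sum_congr rfl fun m _ => ?_
    rw [map_mul, map_prod, hσ _ (hI p hp m)]
    congr 1
    refine Finset.prod_congr rfl fun i _ => ?_
    rw [map_pow]
    rfl

theorem Tors.defOver (hT : Tors K T) (d : ℕ) : DefOver K (Wt T d) := by
  refine defOver_of_aut _ fun σ hσ w hw h hh => ?_
  have hσ' : ∀ x ∈ K, σ.symm x = x := fun x hx => by
    rw [RingEquiv.symm_apply_eq, hσ x hx]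
  have h1 := hw _ (hT.map_aut hσ' hh)
  have h2 := congrArg σ h1
  rw [map_zero] at h2
  rw [← h2]
  unfold evalF
  rw [map_sum]
  refine Finset.sum_congr rfl fun I _ => ?_
  rw [map_mul, map_prod]
  congr 1
  refine Finset.prod_congr rfl fun k _ => ?_
  unfold cx
  cases I k with
  | none => simp
  | some p =>
    simp only [Option.elim_some, Matrix.map_apply, RingEquiv.apply_symm_apply]

/-- The tangent space. -/
def Tan (T : Set (Matrix B B ℂ)) (Z V : Matrix B B ℂ) : Prop :=
  ∀ d, ∀ w ∈ Wt T d, Dv w Z V = 0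

theorem Tan.add {Z V V' : Matrix B B ℂ} (h : Tan T Z V) (h' : Tan T Z V') : Tan T Z (V + V') :=
  fun d w hw => by rw [Dv_add, h d w hw, h' d w hw, add_zero]

theorem Tan.smul {Z V : Matrix B B ℂ} (a : ℂ) (h : Tan T Z V) : Tan T Z (a • V) :=
  fun d w hw => by rw [Dv_smul, h d w hw, mul_zero]

theorem Tan.neg {Z V : Matrix B B ℂ} (h : Tan T Z V) : Tan T Z (-V) := by
  have := h.smul (-1)
  rwa [neg_one_smul] at this

theorem Tan.sub {Z V V' : Matrix B B ℂ} (h : Tan T Z V) (h' : Tan T Z V') : Tan T Z (V - V') := by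
  rw [sub_eq_add_neg]
  exact h.add h'.neg

theorem Tan.zero {Z : Matrix B B ℂ} : Tan T Z 0 := fun d w _ => by
  have h := Dv_smul w Z 0 0
  rwa [zero_smul, zero_mul] at h

/-- Right multiplication by `E⁻¹ Y`. -/
theorem Tors.tan_right (hT : Tors K T) {E Y V E' : Matrix B B ℂ} (hE : E ∈ T) (hY : Y ∈ T)
    (h1 : E * E' = 1) (h2 : E' * E = 1) (hV : Tan T E V) : Tan T Y (V * (E' * Y)) := by
  intro d w hw
  have h3 : pull (MM (E' * Y)) w ∈ Wt T d := by
    rw [pull_mem_Wt]
    intro h hh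
    have := hT.tri h hh E hE Y hY E' h1 h2
    rw [Matrix.mul_assoc] at this
    exact hw _ this
  have h4 := hV d _ h3
  rw [Dv_pull w (MM_mulVec _ _) (MM_mulVec0 _ _), ← Matrix.mul_assoc E, h1, Matrix.one_mul] at h4
  exact h4

/-- Left multiplication by `Y E⁻¹`. -/
theorem Tors.tan_left (hT : Tors K T) {E Y V E' : Matrix B B ℂ} (hE : E ∈ T) (hY : Y ∈ T)
    (h1 : E * E' = 1) (h2 : E' * E = 1) (hV : Tan T E V) : Tan T Y (Y * E' * V) := by
  intro d w hw
  have h3 : pull (NN (Y * E')) w ∈ Wt T d := by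
    rw [mem_Wt]
    intro h hh
    rw [evalF_pull]
    simp only [NN_mulVec]
    exact hw _ (hT.tri Y hY E hE h hh E' h1 h2)
  have h4 := hV d _ h3
  rw [Dv_pull w (NN_mulVec _ _) (NN_mulVec0 _ _), Matrix.mul_assoc Y E' E, h2,
    Matrix.mul_one] at h4
  exact h4

/-- The Lie algebra of the group acting from the right. -/
theorem Tors.stab_iff (hT : Tors K T) {E E' X : Matrix B B ℂ} (hE : E ∈ T)
    (h1 : E * E' = 1) (h2 : E' * E = 1) : (∀ d, Stab T d X) ↔ Tan T E (E * X) := by
  constructor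
  · intro h d w hw
    have h3 := h d w hw E hE
    rwa [Dv_act] at h3
  · intro h d w hw Y hY
    rw [Dv_act]
    have h3 := hT.tan_left hE hY h1 h2 h d w hw
    rwa [← Matrix.mul_assoc, Matrix.mul_assoc Y E' E, h2, Matrix.mul_one] at h3

theorem Tors.stab_map (hT : Tors K T) {d : ℕ} (f : ℂ →ₗ[K] ℂ) {X : Matrix B B ℂ}
    (hX : Stab T d X) : Stab T d (X.map f) := by
  intro w hw
  have h1 := DR.stab_map (hT.defOver d) (M := 1) (S := LL X) (fun x y => by
    rw [Matrix.one_apply]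
    split_ifs
    · exact K.one_mem
    · exact K.zero_mem) f (fun u hu => by
      rw [Matrix.one_mul]
      exact hX u hu) w hw
  rw [Matrix.one_mul, LL_map (map_zero f)] at h1
  exact h1

/-- The tangent space is defined over `K`, from the right. -/
theorem Tors.tan_map (hT : Tors K T) {E E' X : Matrix B B ℂ} (hE : E ∈ T)
    (h1 : E * E' = 1) (h2 : E' * E = 1) (f : ℂ →ₗ[K] ℂ) (hX : Tan T E (E * X)) :
    Tan T E (E * X.map f) :=
  (hT.stab_iff hE h1 h2).1 fun d => hT.stab_map f ((hT.stab_iff hE h1 h2).2 hX d)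

/-- The transposed torsor. -/
def tr (T : Set (Matrix B B ℂ)) : Set (Matrix B B ℂ) := {x | xᵀ ∈ T}

theorem Tors.tr (hT : Tors K T) : Tors K (tr T) := by
  refine ⟨fun x hx => ?_, fun x hx y hy z hz y' h1 h2 => ?_, ?_⟩
  · obtain ⟨y, h1, h2⟩ := hT.inv _ hx
    refine ⟨yᵀ, ?_, ?_⟩
    · rw [← Matrix.transpose_transpose x, ← Matrix.transpose_mul, h2, Matrix.transpose_one]
    · rw [← Matrix.transpose_transpose x, ← Matrix.transpose_mul, h1, Matrix.transpose_one]
  · change (x * y' * z)ᵀ ∈ T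
    rw [Matrix.transpose_mul, Matrix.transpose_mul, ← Matrix.mul_assoc]
    refine hT.tri _ hz _ hy _ hx _ ?_ ?_
    · rw [← Matrix.transpose_mul, h2, Matrix.transpose_one]
    · rw [← Matrix.transpose_mul, h1, Matrix.transpose_one]
  · obtain ⟨I, hI, hI2⟩ := hT.alg
    refine ⟨(fun p => MvPolynomial.rename Prod.swap p) '' I, ?_, fun g => ?_⟩
    · rintro _ ⟨p, hp, rfl⟩ m
      by_cases hm : m ∈ Set.range (Finsupp.mapDomain (M := ℕ) (Prod.swap : B × B → B × B))
      · obtain ⟨m', rfl⟩ := hm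
        rw [MvPolynomial.coeff_rename_mapDomain _ Prod.swap_injective]
        exact hI p hp m'
      · rw [MvPolynomial.coeff_rename_eq_zero]
        · exact K.zero_mem
        · intro u hu
          exact absurd ⟨u, hu⟩ hm
    · change gᵀ ∈ T ↔ _
      rw [hI2]
      refine and_congr ⟨?_, ?_⟩ ?_
      · rintro ⟨g', h1, h2⟩
        refine ⟨g'ᵀ, ?_, ?_⟩
        · rw [← Matrix.transpose_transpose g, ← Matrix.transpose_mul, h2, Matrix.transpose_one]
        · rw [← Matrix.transpose_transpose g, ← Matrix.transpose_mul, h1, Matrix.transpose_one]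
      · rintro ⟨g', h1, h2⟩
        exact ⟨g'ᵀ, by rw [← Matrix.transpose_mul, h2, Matrix.transpose_one], by
          rw [← Matrix.transpose_mul, h1, Matrix.transpose_one]⟩
      · constructor
        · rintro h _ ⟨p, hp, rfl⟩
          rw [MvPolynomial.eval_rename]
          exact h p hp
        · intro h p hp
          have := h _ ⟨p, hp, rfl⟩
          rw [MvPolynomial.eval_rename] at this
          exact this

theorem tr_tr : TO.tr (TO.tr T) = T := by
  ext x
  change xᵀᵀ ∈ T ↔ x ∈ T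
  rw [Matrix.transpose_transpose]

theorem Tan.tr {Z V : Matrix B B ℂ} (h : Tan T Z V) : Tan (TO.tr T) Zᵀ Vᵀ := by
  intro d w hw
  have h3 : pull TT w ∈ Wt T d := by
    rw [mem_Wt]
    intro x hx
    rw [evalF_pull]
    simp only [TT_mulVec]
    refine hw _ ?_
    change xᵀᵀ ∈ T
    rwa [Matrix.transpose_transpose]
  have h4 := h d _ h3
  rwa [Dv_pull w (TT_mulVec _) (TT_mulVec0 _)] at h4

/-- The tangent space is defined over `K`, from the left. -/
theorem Tors.tan_map' (hT : Tors K T) {E E' Y : Matrix B B ℂ} (hE : E ∈ T)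
    (h1 : E * E' = 1) (h2 : E' * E = 1) (f : ℂ →ₗ[K] ℂ) (hY : Tan T E (Y * E)) :
    Tan T E (Y.map f * E) := by
  have h3 := hY.tr
  rw [Matrix.transpose_mul] at h3
  have h4 := hT.tr.tan_map (E := Eᵀ) (E' := E'ᵀ) (X := Yᵀ) (by
    change Eᵀᵀ ∈ T
    rwa [Matrix.transpose_transpose]) (by
    rw [← Matrix.transpose_mul, h2, Matrix.transpose_one]) (by
    rw [← Matrix.transpose_mul, h1, Matrix.transpose_one]) f h3
  have h5 := h4.tr
  rw [tr_tr, Matrix.transpose_mul, Matrix.transpose_transpose, ← Matrix.transpose_map,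
    Matrix.transpose_transpose] at h5
  exact h5

/-- The derivatives are tangent vectors. -/
theorem Tors.tan_der (hT : Tors K T) (hK : ∀ x ∈ K, IsAlgebraic ℚ x) {E : Matrix B B ℂ}
    (hE : E ∈ T) (δ : Derivation ℚ ℂ ℂ) : Tan T E (E.map δ) := by
  intro d w hw
  have h2 := hT.defOver d hw
  clear hw
  induction h2 using Submodule.span_induction with
  | mem u h2 =>
    have h3 := congrArg δ (h2.1 E hE)
    rw [map_zero] at h3
    rw [← h3]
    unfold Dv evalF
    rw [map_sum, Finset.sum_comm]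
    refine Finset.sum_congr rfl fun I _ => ?_
    rw [Derivation.leibniz, deriv_alg δ (hK _ (h2.2 I)), smul_zero, add_zero, smul_eq_mul,
      deriv_prod, Finset.mul_sum]
    refine Finset.sum_congr rfl fun k _ => ?_
    congr 1
    rw [← Finset.mul_prod_erase _ _ (Finset.mem_univ k), Function.update_self]
    have h4 : cx0 (E.map δ) (I k) = δ (cx E (I k)) := by
      unfold cx0 cx
      cases I k with
      | none => simp
      | some p => rfl
    rw [h4]
    congr 1
    refine Finset.prod_congr rfl fun l hl => ?_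
    rw [Function.update_of_ne (Finset.ne_of_mem_erase hl)]
  | zero =>
    have h := Dv_smul_left 0 (0 : (Fin d → Option (B × B)) → ℂ) E (E.map δ)
    rwa [zero_smul, zero_mul] at h
  | add x y _ _ hx hy => rw [Dv_add_left, hx, hy, add_zero]
  | smul c x _ hx => rw [Dv_smul_left, hx, mul_zero]

/-- The torsor is stable under the matrices which preserve its equations. -/
theorem Tors.mem_of_pres (hT : Tors K T) {E g g' : Matrix B B ℂ} (hE : E ∈ T) (hg : Pres T g)
    (h1 : g * g' = 1) (h2 : g' * g = 1) : E * g ∈ T := by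
  obtain ⟨I, hI, hI2⟩ := hT.alg
  obtain ⟨E', h3, h4⟩ := hT.inv E hE
  refine (hI2 _).2 ⟨⟨g' * E', ?_, ?_⟩, fun p hp => ?_⟩
  · rw [Matrix.mul_assoc, ← Matrix.mul_assoc g, h1, Matrix.one_mul, h3]
  · rw [Matrix.mul_assoc, ← Matrix.mul_assoc E', h4, Matrix.one_mul, h2]
  · obtain ⟨d, w, hw⟩ := exists_tensor p
    have hcx : ∀ x : Matrix B B ℂ, evalF w (fun _ => cx x) =
        MvPolynomial.eval (fun b => x b.1 b.2) p := fun x => hw (fun b => x b.1 b.2)
    have h5 : w ∈ Wt T d := fun h hh => by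
      rw [hcx]
      exact ((hI2 h).1 hh).2 p hp
    have h6 := pull_mem_Wt.1 (hg d w h5) E hE
    rw [hcx] at h6
    exact h6

end Pool.Agent.TH119.TO
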