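import Mathlib
import Pool.Agent.TH119.TO.Tors
import Pool.Agent.TH119.DR.Fam
import Pool.Agent.Helper509.SpGen

/-!
# Period matrices without relations of degree two
-/

set_option linter.unusedSectionVars false

namespace Pool.Agent.TH119.TO

open Finset Matrix Pool.Agent.W437.HK Pool.Agent.TH119.DR Pool.Agent.TH119.MX

variable {g : ℕ}

/-- Symplectic similitudes. -/
def Sim (X : Matrix (Fin g ⊕ Fin g) (Fin g ⊕ Fin g) ℂ) : Prop :=
  ∃ c : ℂ, c ≠ 0 ∧ X * Sp g * Xᵀ = c • Sp g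

/-- There is no relation of degree at most `n` over `K` between the entries of `E` which does not
hold for all symplectic similitudes. -/
def NoRel (K : Subfield ℂ) (n : ℕ) (E : Matrix (Fin g ⊕ Fin g) (Fin g ⊕ Fin g) ℂ) : Prop :=
  ∀ p : MvPolynomial ((Fin g ⊕ Fin g) × (Fin g ⊕ Fin g)) ℂ, (∀ m, p.coeff m ∈ K) →
    p.totalDegree ≤ n → MvPolynomial.eval (fun b => E b.1 b.2) p = 0 →
    ∀ X, Sim X → MvPolynomial.eval (fun b => X b.1 b.2) p = 0

theorem map_mul_right {K : Subfield ℂ} {α β γ : Type*} [Fintype β] (f : ℂ →ₗ[K] ℂ)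
    {M : Matrix β γ ℂ} (hM : ∀ i j, M i j ∈ K) (A : Matrix α β ℂ) :
    (A * M).map f = A.map f * M := by
  ext i j
  rw [Matrix.map_apply, Matrix.mul_apply, Matrix.mul_apply, map_sum]
  exact Finset.sum_congr rfl fun k _ => lin_mul' f (hM k j) _

theorem map_mul_left {K : Subfield ℂ} {α β γ : Type*} [Fintype β] (f : ℂ →ₗ[K] ℂ)
    {M : Matrix α β ℂ} (hM : ∀ i j, M i j ∈ K) (A : Matrix β γ ℂ) :
    (M * A).map f = M * A.map f := by
  ext i j
  rw [Matrix.map_apply, Matrix.mul_apply, Matrix.mul_apply, map_sum]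
  exact Finset.sum_congr rfl fun k _ => lin_mul f (hM i k) _

section quad

variable {n : Type*} [Fintype n] [DecidableEq n]

theorem quad_add (c : Matrix n n ℂ) (hc : cᵀ = c) (v w : n → ℂ) (t : ℂ) :
    (v + t • w) ⬝ᵥ (c *ᵥ (v + t • w)) =
      v ⬝ᵥ (c *ᵥ v) + 2 * (v ⬝ᵥ (c *ᵥ w)) * t + w ⬝ᵥ (c *ᵥ w) * t ^ 2 := by
  have h1 : w ⬝ᵥ (c *ᵥ v) = v ⬝ᵥ (c *ᵥ w) := by
    rw [Matrix.dotProduct_mulVec, ← Matrix.mulVec_transpose, hc, dotProduct_comm]
  rw [mulVec_add, mulVec_smul, add_dotProduct, dotProduct_add, dotProduct_add, smul_dotProduct,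
    dotProduct_smul, smul_dotProduct, dotProduct_smul, h1]
  simp only [smul_eq_mul]
  ring

theorem quad_zero {c : Matrix n n ℂ} (hc : cᵀ = c) (h : ∀ v : n → ℂ, v ⬝ᵥ (c *ᵥ v) = 0) : c = 0 := by
  ext i j
  have h1 := quad_add c hc (Pi.single i 1) (Pi.single j 1) 1
  rw [h, h, h] at h1
  simp only [mul_one, one_pow, zero_add, add_zero] at h1
  have h2 : (Pi.single i (1 : ℂ) : n → ℂ) ⬝ᵥ (c *ᵥ Pi.single j 1) = c i j := by
    rw [mulVec_single_one, single_dotProduct, one_mul]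
    rfl
  rw [h2] at h1
  have h3 : c i j = 0 := by
    rcases mul_eq_zero.1 h1.symm with h | h
    · exact absurd h two_ne_zero
    · exact h
  rw [h3]
  rfl

theorem quad_mul {b c : Matrix n n ℂ} (hb : bᵀ = b) (hc : cᵀ = c)
    (h : ∀ v : n → ℂ, (v ⬝ᵥ (b *ᵥ v)) * (v ⬝ᵥ (c *ᵥ v)) = 0) : b = 0 ∨ c = 0 := by
  by_contra hcon
  push Not at hcon
  obtain ⟨v, hv⟩ : ∃ v : n → ℂ, v ⬝ᵥ (b *ᵥ v) ≠ 0 := by
    by_contra h1
    push Not at h1
    exact hcon.1 (quad_zero hb h1)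
  obtain ⟨w, hw⟩ : ∃ v : n → ℂ, v ⬝ᵥ (c *ᵥ v) ≠ 0 := by
    by_contra h1
    push Not at h1
    exact hcon.2 (quad_zero hc h1)
  let P : Matrix n n ℂ → Polynomial ℂ := fun c => Polynomial.C (v ⬝ᵥ (c *ᵥ v)) +
    Polynomial.C (2 * (v ⬝ᵥ (c *ᵥ w))) * Polynomial.X + Polynomial.C (w ⬝ᵥ (c *ᵥ w)) *
      Polynomial.X ^ 2
  have hP : ∀ (c : Matrix n n ℂ), cᵀ = c → ∀ t, (P c).eval t =
      (v + t • w) ⬝ᵥ (c *ᵥ (v + t • w)) := by
    intro c hc t
    rw [quad_add c hc]
    simp [P]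
  have h1 : P b * P c = 0 := by
    refine Polynomial.funext fun t => ?_
    rw [Polynomial.eval_mul, hP b hb, hP c hc, h, Polynomial.eval_zero]
  rcases mul_eq_zero.1 h1 with h2 | h2
  · have h3 := congrArg (fun p => Polynomial.eval 0 p) h2
    simp only [P, Polynomial.eval_add, Polynomial.eval_C, Polynomial.eval_mul, Polynomial.eval_X,
      Polynomial.eval_pow, Polynomial.eval_zero] at h3
    apply hv
    rw [← h3]
    ring
  · have h3 := congrArg (fun p => Polynomial.coeff p 2) h2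
    simp only [P, Polynomial.coeff_add, Polynomial.coeff_C, Polynomial.coeff_C_mul,
      Polynomial.coeff_X, Polynomial.coeff_X_pow, Polynomial.coeff_zero] at h3
    norm_num at h3
    exact hw h3

/-- A functional over `K` which kills a given subspace of symmetric matrices. -/
theorem exists_form {K : Subfield ℂ} {s : Submodule ℂ (Matrix n n ℂ)}
    (hs : ∀ X ∈ s, Xᵀ = X) (hf : ∀ (f : ℂ →ₗ[K] ℂ), ∀ X ∈ s, X.map f ∈ s)
    {S : Matrix n n ℂ} (hS : Sᵀ = S) (hSs : S ∉ s) :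
    ∃ b : Matrix n n ℂ, bᵀ = b ∧ (∀ i j, b i j ∈ K) ∧ b ≠ 0 ∧
      ∀ X ∈ s, ∑ x, ∑ y, b x y * X x y = 0 := by
  classical
  -- an element with coordinates in `K`
  obtain ⟨T, hT1, hT2, hT4⟩ : ∃ T : Matrix n n ℂ, Tᵀ = T ∧ (∀ x y, T x y ∈ K) ∧ T ∉ s := by
    by_contra hcon
    push Not at hcon
    apply hSs
    let L : Submodule ℂ (Matrix n n ℂ) :=
      { carrier := {X | Xᵀ = X}
        zero_mem' := Matrix.transpose_zero
        add_mem' := fun {a b} ha hb => by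
          change (a + b)ᵀ = a + b
          rw [Matrix.transpose_add, ha, hb]
        smul_mem' := fun c a ha => by
          change (c • a)ᵀ = c • a
          rw [Matrix.transpose_smul, ha] }
    have h1 : S ∈ Submodule.span ℂ {Y | Y ∈ L ∧ ∀ x y, Y x y ∈ K} := by
      refine mat_coords L ?_ hS
      intro f X hX
      change (X.map f)ᵀ = X.map f
      rw [← Matrix.transpose_map]
      have hX' : Xᵀ = X := hX
      rw [hX']
    refine Submodule.span_le.2 ?_ h1
    rintro T ⟨h2, h4⟩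
    exact hcon T h2 h4
  -- a linear form
  obtain ⟨ψ, hψ1, hψ2⟩ := Submodule.exists_le_ker_of_notMem hT4
  obtain ⟨J, t, e, f, hf', hz⟩ := exists_coords K {ψ T}
  obtain ⟨j, hj⟩ : ∃ j, f j (ψ T) ≠ 0 := by
    by_contra hcon
    push Not at hcon
    apply hψ1
    rw [hz (ψ T) (Finset.mem_singleton_self _)]
    exact Finset.sum_eq_zero fun j _ => by rw [hcon, mul_zero]
  obtain ⟨β, hβ⟩ : ∃ β : Matrix n n ℂ, β = Matrix.of fun x y => f j (ψ (Matrix.single x y 1)) :=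
    ⟨_, rfl⟩
  have hβF : ∀ x y, β x y ∈ K := fun x y => by
    rw [hβ]
    exact hf' j _
  have hβv : ∀ X : Matrix n n ℂ, (∀ x y, X x y ∈ K) → ∑ x, ∑ y, β x y * X x y = f j (ψ X) := by
    intro X hX
    rw [form_eq ψ X, map_sum]
    refine Finset.sum_congr rfl fun x _ => ?_
    rw [map_sum]
    refine Finset.sum_congr rfl fun y _ => ?_
    rw [lin_mul' _ (hX x y), hβ]
    rfl
  have hsym : ∀ X : Matrix n n ℂ, Xᵀ = X →
      ∑ x, ∑ y, (β + βᵀ) x y * X x y = 2 * ∑ x, ∑ y, β x y * X x y := by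
    intro X hX
    have h1 : ∑ x, ∑ y, (β + βᵀ) x y * X x y =
        ∑ x, ∑ y, β x y * X x y + ∑ x, ∑ y, β y x * X y x := by
      rw [← Finset.sum_add_distrib]
      refine Finset.sum_congr rfl fun x _ => ?_
      rw [← Finset.sum_add_distrib]
      refine Finset.sum_congr rfl fun y _ => ?_
      have h2 : X y x = X x y := congrFun (congrFun hX x) y
      rw [Matrix.add_apply, Matrix.transpose_apply, h2]
      ring
    rw [h1, Finset.sum_comm (f := fun x y => β y x * X y x), two_mul]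
  refine ⟨β + βᵀ, ?_, fun i j => K.add_mem (hβF i j) (hβF j i), ?_, ?_⟩
  · rw [Matrix.transpose_add, Matrix.transpose_transpose, add_comm]
  · intro h0
    have h1 := hsym T hT1
    rw [h0, hβv T hT2] at h1
    simp only [Matrix.zero_apply, zero_mul, Finset.sum_const_zero] at h1
    rcases mul_eq_zero.1 h1.symm with h | h
    · exact two_ne_zero h
    · exact hj h
  · intro X hX
    have h1 := mat_coords s hf hX
    clear hX
    induction h1 using Submodule.span_induction with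
    | mem X hX =>
      have h3 : ψ X = 0 := LinearMap.mem_ker.1 (hψ2 hX.1)
      rw [hsym X (hs X hX.1), hβv X hX.2, h3, map_zero, mul_zero]
    | zero => simp
    | add X Y _ _ h2 h3 =>
      simp only [Matrix.add_apply X Y, mul_add, Finset.sum_add_distrib]
      rw [h2, h3, add_zero]
    | smul c X _ h2 =>
      simp only [Matrix.smul_apply, smul_eq_mul, mul_left_comm _ c, ← Finset.mul_sum]
      rw [h2, mul_zero]

end quad

/-- Transvections are similitudes. -/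
theorem sim_transvec (v : Fin g ⊕ Fin g → ℂ) (s : ℂ) :
    Sim (1 + s • Matrix.vecMulVec v (Sp g *ᵥ v)) := by
  refine ⟨1, one_ne_zero, ?_⟩
  rw [one_smul]
  have h1 : Matrix.vecMulVec v (Sp g *ᵥ v) * Sp g = Matrix.vecMulVec v v := by
    rw [Matrix.vecMulVec_mul, ← Matrix.mulVec_transpose, Sp_transpose, Matrix.mulVec_mulVec,
      Matrix.neg_mul, Sp_sq, neg_neg, Matrix.one_mulVec]
  have h2 : Sp g * (Matrix.vecMulVec v (Sp g *ᵥ v))ᵀ = -Matrix.vecMulVec v v := by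
    rw [Matrix.transpose_vecMulVec, Matrix.mul_vecMulVec, Matrix.mulVec_mulVec, Sp_sq,
      Matrix.neg_mulVec, Matrix.one_mulVec, Matrix.neg_vecMulVec]
  have h3 : v ⬝ᵥ (Sp g *ᵥ v) = 0 := by
    have h4 : v ⬝ᵥ (Sp g *ᵥ v) = -(v ⬝ᵥ (Sp g *ᵥ v)) := by
      conv_lhs => rw [Matrix.dotProduct_mulVec, ← Matrix.mulVec_transpose, Sp_transpose,
        Matrix.neg_mulVec, neg_dotProduct, dotProduct_comm]
    have h5 : (2 : ℂ) * (v ⬝ᵥ (Sp g *ᵥ v)) = 0 := by linear_combination h4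
    rcases mul_eq_zero.1 h5 with h | h
    · exact absurd h two_ne_zero
    · exact h
  have h4 : Matrix.vecMulVec v v * (Matrix.vecMulVec v (Sp g *ᵥ v))ᵀ = 0 := by
    rw [Matrix.transpose_vecMulVec, Matrix.vecMulVec_mul_vecMulVec, h3, zero_smul]
    ext i j
    simp [Matrix.vecMulVec_apply]
  rw [Matrix.transpose_add, Matrix.transpose_one, Matrix.transpose_smul, Matrix.add_mul,
    Matrix.one_mul, Matrix.smul_mul, h1, Matrix.mul_add, Matrix.mul_one, Matrix.mul_smul,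
    Matrix.add_mul, h2, Matrix.smul_mul, h4, smul_zero, add_zero, smul_neg]
  abel

theorem sim_one : Sim (1 : Matrix (Fin g ⊕ Fin g) (Fin g ⊕ Fin g) ℂ) :=
  ⟨1, one_ne_zero, by rw [Matrix.transpose_one, Matrix.one_mul, Matrix.mul_one, one_smul]⟩

/-- The polynomial of a quadratic relation. -/
noncomputable def qpol (b c : Matrix (Fin g ⊕ Fin g) (Fin g ⊕ Fin g) ℂ) :
    MvPolynomial ((Fin g ⊕ Fin g) × (Fin g ⊕ Fin g)) ℂ :=
  ∑ x, ∑ y, ∑ z, ∑ w, MvPolynomial.C (b x y * c z w) * MvPolynomial.X (z, x) *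
    MvPolynomial.X (w, y)

theorem eval_qpol (b c X : Matrix (Fin g ⊕ Fin g) (Fin g ⊕ Fin g) ℂ) :
    MvPolynomial.eval (fun b => X b.1 b.2) (qpol b c) = ∑ x, ∑ y, b x y * (Xᵀ * c * X) x y := by
  unfold qpol
  simp only [map_sum, map_mul, MvPolynomial.eval_C, MvPolynomial.eval_X]
  refine Finset.sum_congr rfl fun x _ => Finset.sum_congr rfl fun y _ => ?_
  rw [Matrix.mul_apply, Finset.mul_sum, Finset.sum_comm]
  refine Finset.sum_congr rfl fun w _ => ?_
  rw [Matrix.mul_apply, Finset.sum_mul, Finset.mul_sum]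
  refine Finset.sum_congr rfl fun z _ => ?_
  rw [Matrix.transpose_apply]
  ring

theorem deg_qpol (b c : Matrix (Fin g ⊕ Fin g) (Fin g ⊕ Fin g) ℂ) : (qpol b c).totalDegree ≤ 2 := by
  unfold qpol
  refine MvPolynomial.totalDegree_finsetSum_le fun x _ => ?_
  refine MvPolynomial.totalDegree_finsetSum_le fun y _ => ?_
  refine MvPolynomial.totalDegree_finsetSum_le fun z _ => ?_
  refine MvPolynomial.totalDegree_finsetSum_le fun w _ => ?_
  refine (MvPolynomial.totalDegree_mul _ _).trans ?_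
  refine (add_le_add (MvPolynomial.totalDegree_mul _ _) le_rfl).trans ?_
  rw [MvPolynomial.totalDegree_C, MvPolynomial.totalDegree_X, MvPolynomial.totalDegree_X]

theorem coeff_range {K : Subfield ℂ} {σ : Type*} {p : MvPolynomial σ ℂ}
    (h : p ∈ (MvPolynomial.map (σ := σ) K.subtype).range) (m : σ →₀ ℕ) : p.coeff m ∈ K := by
  obtain ⟨q, rfl⟩ := h
  rw [MvPolynomial.coeff_map]
  exact Subtype.mem _

theorem X_range {K : Subfield ℂ} {σ : Type*} (s : σ) :
    (MvPolynomial.X s : MvPolynomial σ ℂ) ∈ (MvPolynomial.map (σ := σ) K.subtype).range :=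
  ⟨MvPolynomial.X s, MvPolynomial.map_X _ _⟩

theorem C_range {K : Subfield ℂ} {σ : Type*} {c : ℂ} (hc : c ∈ K) :
    (MvPolynomial.C c : MvPolynomial σ ℂ) ∈ (MvPolynomial.map (σ := σ) K.subtype).range :=
  ⟨MvPolynomial.C ⟨c, hc⟩, MvPolynomial.map_C _ _⟩

theorem coeff_qpol {K : Subfield ℂ} {b c : Matrix (Fin g ⊕ Fin g) (Fin g ⊕ Fin g) ℂ}
    (hb : ∀ x y, b x y ∈ K) (hc : ∀ x y, c x y ∈ K) (m) : (qpol b c).coeff m ∈ K := by
  refine coeff_range ?_ m
  unfold qpol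
  exact sum_mem fun x _ => sum_mem fun y _ => sum_mem fun z _ => sum_mem fun w _ =>
    mul_mem (mul_mem (C_range (K.mul_mem (hb _ _) (hc _ _))) (X_range _)) (X_range _)

/-- Quadratic relations of adjoint type are trivial. -/
theorem rel_kill {K : Subfield ℂ} {E b c : Matrix (Fin g ⊕ Fin g) (Fin g ⊕ Fin g) ℂ}
    (hE : NoRel K 2 E) (hb : bᵀ = b) (hc : cᵀ = c) (hbK : ∀ x y, b x y ∈ K)
    (hcK : ∀ x y, c x y ∈ K) (h : ∑ x, ∑ y, b x y * (Eᵀ * c * E) x y = 0) : b = 0 ∨ c = 0 := by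
  have h1 : ∀ X : Matrix (Fin g ⊕ Fin g) (Fin g ⊕ Fin g) ℂ, Sim X →
      ∑ x, ∑ y, b x y * (Xᵀ * c * X) x y = 0 := by
    intro X hX
    have h2 := hE (qpol b c) (coeff_qpol hbK hcK) (deg_qpol b c) (by rw [eval_qpol, h]) X hX
    rwa [eval_qpol] at h2
  have htr : ∀ M : Matrix (Fin g ⊕ Fin g) (Fin g ⊕ Fin g) ℂ,
      ∑ x, ∑ y, b x y * M x y = (b * M).trace := by
    intro M
    rw [Matrix.trace]
    simp only [Matrix.diag_apply, Matrix.mul_apply]
    rw [Finset.sum_comm]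
    refine Finset.sum_congr rfl fun x _ => Finset.sum_congr rfl fun y _ => ?_
    have h2 : b x y = b y x := congrFun (congrFun hb y) x
    rw [← h2]
  have h2 : ∀ v : Fin g ⊕ Fin g → ℂ,
      (v ⬝ᵥ ((Sp g * b * Sp g) *ᵥ v)) * (v ⬝ᵥ (c *ᵥ v)) = 0 := by
    intro v
    let u := Sp g *ᵥ v
    have h3 : ∀ s : ℂ, (b * c).trace + s * ((b * (Matrix.vecMulVec u v * c)).trace +
        (b * (c * Matrix.vecMulVec v u)).trace) + s ^ 2 * ((v ⬝ᵥ (c *ᵥ v)) * (u ⬝ᵥ (b *ᵥ u))) =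
        0 := by
      intro s
      have h4 := h1 _ (sim_transvec v s)
      rw [htr] at h4
      rw [← h4]
      have h5 : (1 + s • Matrix.vecMulVec v u)ᵀ * c * (1 + s • Matrix.vecMulVec v u) =
          c + s • (Matrix.vecMulVec u v * c + c * Matrix.vecMulVec v u) +
            s ^ 2 • ((v ⬝ᵥ (c *ᵥ v)) • Matrix.vecMulVec u u) := by
        have hU : Matrix.vecMulVec u v * c * Matrix.vecMulVec v u =
            (v ⬝ᵥ (c *ᵥ v)) • Matrix.vecMulVec u u := by
          rw [Matrix.mul_assoc, Matrix.mul_vecMulVec, Matrix.vecMulVec_mul_vecMulVec]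
          ext i j
          simp only [Matrix.vecMulVec_apply, Matrix.smul_apply, Pi.smul_apply, smul_eq_mul]
          ring
        rw [Matrix.transpose_add, Matrix.transpose_one, Matrix.transpose_smul,
          Matrix.transpose_vecMulVec, Matrix.add_mul, Matrix.one_mul, Matrix.smul_mul,
          Matrix.mul_add, Matrix.mul_one, Matrix.mul_smul, Matrix.add_mul, Matrix.smul_mul, hU]
        module
      change _ = (b * ((1 + s • Matrix.vecMulVec v u)ᵀ * c * (1 + s • Matrix.vecMulVec v u))).trace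
      rw [h5, Matrix.mul_add, Matrix.mul_add, Matrix.mul_smul, Matrix.mul_smul, Matrix.mul_smul,
        Matrix.trace_add, Matrix.trace_add, Matrix.trace_smul, Matrix.trace_smul,
        Matrix.trace_smul, Matrix.mul_add, Matrix.trace_add, Matrix.mul_vecMulVec b u u,
        Matrix.trace_vecMulVec]
      simp only [smul_eq_mul]
      rw [dotProduct_comm (b *ᵥ u) u]
    have h4 := h3 0
    have h5 := h3 1
    have h6 := h3 (-1)
    have h8 : ∀ w, (Sp g *ᵥ v) ⬝ᵥ w = -(v ⬝ᵥ (Sp g *ᵥ w)) := by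
      intro w
      rw [← Matrix.vecMul_transpose, Sp_transpose, Matrix.vecMul_neg, neg_dotProduct,
        ← Matrix.dotProduct_mulVec]
    have h7 : u ⬝ᵥ (b *ᵥ u) = -(v ⬝ᵥ ((Sp g * b * Sp g) *ᵥ v)) := by
      change (Sp g *ᵥ v) ⬝ᵥ (b *ᵥ (Sp g *ᵥ v)) = _
      rw [h8, Matrix.mulVec_mulVec, Matrix.mulVec_mulVec]
    rw [h7] at h4 h5 h6
    linear_combination h4 - h5 / 2 - h6 / 2
  rcases quad_mul (by
    rw [Matrix.transpose_mul, Matrix.transpose_mul, Sp_transpose, hb, Matrix.mul_neg,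
      Matrix.neg_mul, Matrix.mul_neg, neg_neg, Matrix.mul_assoc]) hc h2 with h3 | h3
  · left
    calc b = Sp g * (Sp g * b * Sp g) * Sp g := by
          rw [Matrix.mul_assoc (Sp g) b, ← Matrix.mul_assoc (Sp g) (Sp g), Sp_sq,
            Matrix.neg_mul, Matrix.one_mul, Matrix.neg_mul, Matrix.mul_assoc, Sp_sq,
            Matrix.mul_neg, neg_neg, Matrix.mul_one]
      _ = 0 := by rw [h3, Matrix.mul_zero, Matrix.zero_mul]
  · exact Or.inr h3

end Pool.Agent.TH119.TO
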