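import Mathlib
import Pool.Agent.TH119.TO.Tors

/-!
# One-parameter groups and the stabilizer of a torsor
-/

set_option linter.unusedSectionVars false

namespace Pool.Agent.TH119.TO

open Finset Matrix Pool.Agent.W437.HK Pool.Agent.TH119.DR Pool.Agent.TH119.MX NormedSpace

variable {B : Type*} [Fintype B] [DecidableEq B]

/-- The derivative of a tensor along a curve. -/
theorem hasDerivAt_evalF {d : ℕ} (w : (Fin d → Option (B × B)) → ℂ) {Z : ℂ → Matrix B B ℂ}
    {V : Matrix B B ℂ} {t : ℂ} (h : ∀ i j, HasDerivAt (fun s => Z s i j) (V i j) t) :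
    HasDerivAt (fun s => evalF w (fun _ => cx (Z s))) (Dv w (Z t) V) t := by
  have h1 : ∀ o, HasDerivAt (fun s => cx (Z s) o) (cx0 V o) t := by
    intro o
    rcases o with _ | ⟨i, j⟩
    · exact hasDerivAt_const t (1 : ℂ)
    · exact h i j
  have h2 : ∀ I : Fin d → Option (B × B), HasDerivAt (fun s => ∏ k, cx (Z s) (I k))
      (∑ k, (∏ l ∈ Finset.univ.erase k, cx (Z t) (I l)) • cx0 V (I k)) t := fun I =>
    HasDerivAt.fun_finsetProd fun k _ => h1 (I k)
  have h3 : HasDerivAt (fun s => ∑ I, w I * ∏ k, cx (Z s) (I k))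
      (∑ I, w I * (∑ k, (∏ l ∈ Finset.univ.erase k, cx (Z t) (I l)) • cx0 V (I k))) t :=
    HasDerivAt.fun_sum fun I _ => (h2 I).const_mul (w I)
  have h4 : Dv w (Z t) V =
      ∑ I, w I * (∑ k, (∏ l ∈ Finset.univ.erase k, cx (Z t) (I l)) • cx0 V (I k)) := by
    unfold Dv evalF
    rw [Finset.sum_comm]
    refine Finset.sum_congr rfl fun I _ => ?_
    rw [Finset.mul_sum]
    refine Finset.sum_congr rfl fun k _ => ?_
    congr 1
    rw [← Finset.mul_prod_erase _ _ (Finset.mem_univ k), Function.update_self, smul_eq_mul,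
      mul_comm]
    congr 1
    refine Finset.prod_congr rfl fun l hl => ?_
    rw [Function.update_of_ne (Finset.ne_of_mem_erase hl)]
  rw [h4]
  exact h3

section

attribute [local instance] Matrix.linftyOpNormedRing Matrix.linftyOpNormedAlgebra
  Matrix.linftyOpNormedAddCommGroup Matrix.linftyOpNormedSpace

/-- The derivative of the entries of the exponential. -/
theorem hasDerivAt_exp_entry (Y X : Matrix B B ℂ) (t : ℂ) (i j : B) :
    HasDerivAt (fun s : ℂ => (Y * exp (s • X)) i j) ((Y * exp (t • X) * X) i j) t := by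
  have h1 : HasDerivAt (fun s : ℂ => exp (s • X)) (exp (t • X) * X) t :=
    hasDerivAt_exp_smul_const X t
  have h2 : ∀ i j, HasDerivAt (fun s : ℂ => (exp (s • X)) i j) ((exp (t • X) * X) i j) t := by
    intro i j
    let L : Matrix B B ℂ →L[ℂ] ℂ :=
      LinearMap.toContinuousLinearMap (Matrix.entryLinearMap ℂ ℂ i j)
    exact L.hasFDerivAt.comp_hasDerivAt t h1
  have h3 : ∀ s : ℂ, (Y * exp (s • X)) i j = ∑ k, Y i k * (exp (s • X)) k j := fun s =>
    Matrix.mul_apply
  simp only [h3]
  rw [Matrix.mul_assoc, Matrix.mul_apply]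
  exact HasDerivAt.fun_sum fun k _ => (h2 k j).const_mul (Y i k)

end

/-- The derivative of a tensor along a one-parameter group. -/
theorem hasDerivAt_exp {d : ℕ} (w : (Fin d → Option (B × B)) → ℂ) (Y X : Matrix B B ℂ) (t : ℂ) :
    HasDerivAt (fun s : ℂ => evalF w (fun _ => cx (Y * exp (s • X))))
      (evalF (act (LL X) w) (fun _ => cx (Y * exp (t • X)))) t := by
  rw [Dv_act]
  exact hasDerivAt_evalF w fun i j => hasDerivAt_exp_entry Y X t i j

theorem eval_exp {T : Set (Matrix B B ℂ)} {X : Matrix B B ℂ} (hX : ∀ d, Stab T d X)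
    {Y : Matrix B B ℂ} (hY : Y ∈ T) {d : ℕ} {w : (Fin d → Option (B × B)) → ℂ} (hw : w ∈ Wt T d)
    (t : ℂ) : evalF w (fun _ => cx (Y * exp (t • X))) = 0 := by
  have h1 : ∀ (n : ℕ) (w : (Fin d → Option (B × B)) → ℂ), w ∈ Wt T d →
      iteratedDeriv n (fun s : ℂ => evalF w (fun _ => cx (Y * exp (s • X)))) 0 = 0 := by
    intro n
    induction n with
    | zero =>
      intro w hw
      rw [iteratedDeriv_zero]
      simp only [zero_smul, exp_zero, Matrix.mul_one]
      exact hw Y hY
    | succ n ih =>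
      intro w hw
      rw [iteratedDeriv_succ']
      have h2 : deriv (fun s : ℂ => evalF w (fun _ => cx (Y * exp (s • X)))) =
          fun s : ℂ => evalF (act (LL X) w) (fun _ => cx (Y * exp (s • X))) := by
        funext s
        exact (hasDerivAt_exp w Y X s).deriv
      rw [h2]
      exact ih _ (hX d w hw)
  have h2 : Differentiable ℂ (fun s : ℂ => evalF w (fun _ => cx (Y * exp (s • X)))) := fun s =>
    (hasDerivAt_exp w Y X s).differentiableAt
  have h3 := Complex.taylorSeries_eq_of_entire' 0 t h2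
  simp only [h1 _ w hw, mul_zero, zero_mul, tsum_zero] at h3
  exact h3.symm

theorem exp_mul_exp_neg (X : Matrix B B ℂ) : exp X * exp (-X) = 1 ∧ exp (-X) * exp X = 1 := by
  have h1 : exp X * exp (-X) = 1 := by
    rw [← Matrix.exp_add_of_commute X (-X) (Commute.neg_right (Commute.refl X)), add_neg_cancel,
      exp_zero]
  exact ⟨h1, mul_eq_one_comm.1 h1⟩

theorem Pres.exp {T : Set (Matrix B B ℂ)} {X : Matrix B B ℂ} (hX : ∀ d, Stab T d X) :
    Pres T (exp X) := by
  intro d w hw
  rw [pull_mem_Wt]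
  intro Y hY
  have h1 := eval_exp hX hY hw 1
  rwa [one_smul] at h1

variable {K : Subfield ℂ} {T : Set (Matrix B B ℂ)}

theorem Tors.exp_mem (hT : Tors K T) {E X : Matrix B B ℂ} (hE : E ∈ T)
    (hX : ∀ d, Stab T d X) : E * NormedSpace.exp X ∈ T :=
  hT.mem_of_pres hE (Pres.exp hX) (exp_mul_exp_neg X).1 (exp_mul_exp_neg X).2

/-- The Lie algebra of the stabilizer. -/
theorem Tors.stab_iff_exp (hT : Tors K T) {E E' X : Matrix B B ℂ} (hE : E ∈ T)
    (h1 : E * E' = 1) (h2 : E' * E = 1) :
    (∀ d, Stab T d X) ↔ ∀ t : ℂ, E * NormedSpace.exp (t • X) ∈ T := by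
  constructor
  · intro h t
    exact hT.exp_mem hE fun d => (h d).smul t
  · intro h
    rw [hT.stab_iff hE h1 h2]
    intro d w hw
    have h3 := hasDerivAt_exp w E X 0
    have h4 : (fun s : ℂ => evalF w (fun _ => cx (E * NormedSpace.exp (s • X)))) = fun _ => 0 := by
      funext s
      exact hw _ (h s)
    rw [h4] at h3
    have h5 := h3.unique (hasDerivAt_const (0 : ℂ) (0 : ℂ))
    rw [Dv_act, zero_smul, exp_zero, Matrix.mul_one] at h5
    exact h5

end Pool.Agent.TH119.TO
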