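import Mathlib
import Pool.Agent.TH119.TO.Crit
import Pool.Agent.TH119.TO.Expo

/-!
# Without quadratic relations the Lie algebra of the period torsor is stable under conjugation
-/

set_option linter.unusedSectionVars false

namespace Pool.Agent.TH119.TO

open Finset Matrix Pool.Agent.W437.HK Pool.Agent.TH119.DR Pool.Agent.TH119.MX

variable {ι : Type*} [Fintype ι] [DecidableEq ι]

/-- A functional over `K` which separates a matrix from a subspace defined over `K`. -/
theorem exists_form2 {K : Subfield ℂ} {s : Submodule ℂ (Matrix ι ι ℂ)}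
    (hf : ∀ (f : ℂ →ₗ[K] ℂ), ∀ X ∈ s, X.map f ∈ s) {Z : Matrix ι ι ℂ} (hZ : Z ∉ s) :
    ∃ b : Matrix ι ι ℂ, (∀ i j, b i j ∈ K) ∧ (∀ X ∈ s, ∑ x, ∑ y, b x y * X x y = 0) ∧
      ∑ x, ∑ y, b x y * Z x y ≠ 0 := by
  classical
  obtain ⟨ψ, hψ1, hψ2⟩ := Submodule.exists_le_ker_of_notMem hZ
  obtain ⟨J, t, e, f, hf', hz⟩ := exists_coords K
    (Finset.univ.image fun p : ι × ι => ψ (Matrix.single p.1 p.2 1))
  have hz' : ∀ x y, ψ (Matrix.single x y 1) =
      ∑ j ∈ t, e j * f j (ψ (Matrix.single x y 1)) := fun x y =>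
    hz _ (Finset.mem_image.2 ⟨(x, y), Finset.mem_univ _, rfl⟩)
  obtain ⟨j, hj⟩ : ∃ j, ∑ x, ∑ y, f j (ψ (Matrix.single x y 1)) * Z x y ≠ 0 := by
    by_contra hcon
    push Not at hcon
    apply hψ1
    rw [form_eq ψ Z]
    calc ∑ x, ∑ y, ψ (Matrix.single x y 1) * Z x y =
        ∑ x, ∑ y, ∑ j ∈ t, e j * (f j (ψ (Matrix.single x y 1)) * Z x y) := by
          refine Finset.sum_congr rfl fun x _ => Finset.sum_congr rfl fun y _ => ?_
          conv_lhs => rw [hz' x y]
          rw [Finset.sum_mul]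
          exact Finset.sum_congr rfl fun j _ => mul_assoc _ _ _
      _ = ∑ j ∈ t, e j * ∑ x, ∑ y, f j (ψ (Matrix.single x y 1)) * Z x y := by
          simp only [Finset.mul_sum]
          rw [Finset.sum_congr rfl fun x _ => Finset.sum_comm, Finset.sum_comm]
      _ = 0 := Finset.sum_eq_zero fun j _ => by rw [hcon j, mul_zero]
  refine ⟨Matrix.of fun x y => f j (ψ (Matrix.single x y 1)), fun x y => hf' j _, ?_, hj⟩
  intro X hX
  have h1 := mat_coords s hf hX
  clear hX
  induction h1 using Submodule.span_induction with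
  | mem X hX =>
    have h3 : ψ X = 0 := LinearMap.mem_ker.1 (hψ2 hX.1)
    have h4 : f j (ψ X) = ∑ x, ∑ y, f j (ψ (Matrix.single x y 1)) * X x y := by
      rw [form_eq ψ X, map_sum]
      refine Finset.sum_congr rfl fun x _ => ?_
      rw [map_sum]
      refine Finset.sum_congr rfl fun y _ => ?_
      rw [lin_mul' _ (hX.2 x y)]
    rw [h3, map_zero] at h4
    exact h4.symm
  | zero => simp
  | add X Y _ _ h2 h3 =>
    simp only [Matrix.add_apply X Y, mul_add, Finset.sum_add_distrib]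
    rw [h2, h3, add_zero]
  | smul c X _ h2 =>
    simp only [Matrix.smul_apply, smul_eq_mul, mul_left_comm _ c, ← Finset.mul_sum]
    rw [h2, mul_zero]

/-- The polynomial of a quadratic relation. -/
noncomputable def qp (b c : Matrix ι ι ℂ) : MvPolynomial (ι × ι) ℂ :=
  ∑ x, ∑ y, ∑ z, ∑ w, MvPolynomial.C (b x y * c z w) * MvPolynomial.X (z, x) *
    MvPolynomial.X (w, y)

theorem eval_qp (b c X : Matrix ι ι ℂ) :
    MvPolynomial.eval (fun b => X b.1 b.2) (qp b c) = ∑ x, ∑ y, b x y * (Xᵀ * c * X) x y := by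
  unfold qp
  simp only [map_sum, map_mul, MvPolynomial.eval_C, MvPolynomial.eval_X]
  refine Finset.sum_congr rfl fun x _ => Finset.sum_congr rfl fun y _ => ?_
  rw [Matrix.mul_apply, Finset.mul_sum, Finset.sum_comm]
  refine Finset.sum_congr rfl fun w _ => ?_
  rw [Matrix.mul_apply, Finset.sum_mul, Finset.mul_sum]
  refine Finset.sum_congr rfl fun z _ => ?_
  rw [Matrix.transpose_apply]
  ring

theorem deg_qp (b c : Matrix ι ι ℂ) : (qp b c).totalDegree ≤ 2 := by
  unfold qp
  refine MvPolynomial.totalDegree_finsetSum_le fun x _ => ?_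
  refine MvPolynomial.totalDegree_finsetSum_le fun y _ => ?_
  refine MvPolynomial.totalDegree_finsetSum_le fun z _ => ?_
  refine MvPolynomial.totalDegree_finsetSum_le fun w _ => ?_
  refine (MvPolynomial.totalDegree_mul _ _).trans ?_
  refine (add_le_add (MvPolynomial.totalDegree_mul _ _) le_rfl).trans ?_
  rw [MvPolynomial.totalDegree_C, MvPolynomial.totalDegree_X, MvPolynomial.totalDegree_X]

theorem coeff_qp {K : Subfield ℂ} {b c : Matrix ι ι ℂ}
    (hb : ∀ x y, b x y ∈ K) (hc : ∀ x y, c x y ∈ K) (m) : (qp b c).coeff m ∈ K := by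
  refine coeff_range ?_ m
  unfold qp
  exact sum_mem fun x _ => sum_mem fun y _ => sum_mem fun z _ => sum_mem fun w _ =>
    mul_mem (mul_mem (C_range (K.mul_mem (hb _ _) (hc _ _))) (X_range _)) (X_range _)

theorem sum_mul_left (b S N : Matrix ι ι ℂ) :
    ∑ x, ∑ y, b x y * (S * N) x y = ∑ x, ∑ y, (Sᵀ * b) x y * N x y := by
  calc ∑ x, ∑ y, b x y * (S * N) x y = ∑ x, ∑ y, ∑ z, b x y * (S x z * N z y) := by
        refine Finset.sum_congr rfl fun x _ => Finset.sum_congr rfl fun y _ => ?_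
        rw [Matrix.mul_apply, Finset.mul_sum]
    _ = ∑ z, ∑ y, ∑ x, b x y * (S x z * N z y) := by
        rw [Finset.sum_congr rfl fun x _ => Finset.sum_comm, Finset.sum_comm]
        refine Finset.sum_congr rfl fun z _ => ?_
        rw [Finset.sum_comm]
    _ = _ := by
        refine Finset.sum_congr rfl fun z _ => Finset.sum_congr rfl fun y _ => ?_
        rw [Matrix.mul_apply, Finset.sum_mul]
        refine Finset.sum_congr rfl fun x _ => ?_
        rw [Matrix.transpose_apply]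
        ring

theorem mul_mem_K {K : Subfield ℂ} {M N : Matrix ι ι ℂ} (hM : ∀ i j, M i j ∈ K)
    (hN : ∀ i j, N i j ∈ K) : ∀ i j, (M * N) i j ∈ K := fun i j => by
  rw [Matrix.mul_apply]
  exact K.sum_mem fun k _ => K.mul_mem (hM _ _) (hN _ _)

variable {K : Subfield ℂ} {T : Set (Matrix ι ι ℂ)} {E E' : Matrix ι ι ℂ}

/-- The Lie algebra on the Betti side. -/
def lieB (T : Set (Matrix ι ι ℂ)) (E : Matrix ι ι ℂ) : Submodule ℂ (Matrix ι ι ℂ) where
  carrier := {Y | Tan T E (E * Y)}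
  zero_mem' := by
    change Tan T E (E * 0)
    rw [Matrix.mul_zero]
    exact Tan.zero
  add_mem' := fun {a b} ha hb => by
    change Tan T E (E * (a + b))
    rw [Matrix.mul_add]
    exact Tan.add ha hb
  smul_mem' := fun c a ha => by
    change Tan T E (E * (c • a))
    rw [Matrix.mul_smul]
    exact Tan.smul c ha

/-- The Lie algebra on the de Rham side. -/
def lieD (T : Set (Matrix ι ι ℂ)) (E : Matrix ι ι ℂ) : Submodule ℂ (Matrix ι ι ℂ) where
  carrier := {Y | Tan T E (Y * E)}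
  zero_mem' := by
    change Tan T E (0 * E)
    rw [Matrix.zero_mul]
    exact Tan.zero
  add_mem' := fun {a b} ha hb => by
    change Tan T E ((a + b) * E)
    rw [Matrix.add_mul]
    exact Tan.add ha hb
  smul_mem' := fun c a ha => by
    change Tan T E ((c • a) * E)
    rw [Matrix.smul_mul]
    exact Tan.smul c ha

theorem mem_lieB {Y : Matrix ι ι ℂ} : Y ∈ lieB T E ↔ Tan T E (E * Y) := Iff.rfl

theorem mem_lieD {Y : Matrix ι ι ℂ} : Y ∈ lieD T E ↔ Tan T E (Y * E) := Iff.rfl

/-- The relations which define the torsor `Bs` have no extra relation of degree at most `n`. -/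
def NoRelB (K : Subfield ℂ) (n : ℕ) (E : Matrix ι ι ℂ) (Bs : Set (Matrix ι ι ℂ)) : Prop :=
  ∀ p : MvPolynomial (ι × ι) ℂ, (∀ m, p.coeff m ∈ K) → p.totalDegree ≤ n →
    MvPolynomial.eval (fun b => E b.1 b.2) p = 0 →
    ∀ X ∈ Bs, MvPolynomial.eval (fun b => X b.1 b.2) p = 0

/-- **The Lie algebra is stable under conjugation.** -/
theorem ad_stable (hT : Tors K T) (hET : E ∈ T) (h1 : E * E' = 1) (h2 : E' * E = 1)
    {S S' S'' : Matrix ι ι ℂ} (hS : ∀ i j, S i j ∈ K) (hS'' : ∀ i j, S'' i j ∈ K)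
    (hSS : S' * S'' = 1) {Bs : Set (Matrix ι ι ℂ)} (hEB : E ∈ Bs)
    (hpol : ∀ X ∈ Bs, ∃ c : ℂ, c ≠ 0 ∧ X * S * Xᵀ = c • S') (hrel : NoRelB K 2 E Bs)
    {u u' : Matrix ι ι ℂ} (hu : E * u ∈ Bs) (hu1 : u * u' = 1) (hu2 : u' * u = 1)
    {Y : Matrix ι ι ℂ} (hY : Y ∈ lieB T E) : u' * Y * u ∈ lieB T E := by
  -- the inverse
  have hinv : ∀ X X' : Matrix ι ι ℂ, X ∈ Bs → X' * X = 1 →
      ∃ c : ℂ, c ≠ 0 ∧ X' = c • (S * Xᵀ * S'') := by
    intro X X' hX hX'
    obtain ⟨c, hc, h3⟩ := hpol X hX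
    refine ⟨c⁻¹, inv_ne_zero hc, ?_⟩
    have h4 : X * (c⁻¹ • (S * Xᵀ * S'')) = 1 := by
      rw [Matrix.mul_smul, ← Matrix.mul_assoc, ← Matrix.mul_assoc, h3, Matrix.smul_mul, hSS,
        smul_smul, inv_mul_cancel₀ hc, one_smul]
    calc X' = X' * (X * (c⁻¹ • (S * Xᵀ * S''))) := by rw [h4, Matrix.mul_one]
      _ = _ := by rw [← Matrix.mul_assoc, hX', Matrix.one_mul]
  have key : ∀ C ∈ lieD T E, u' * (E' * C * E) * u ∈ lieB T E := by
    intro C hC
    have h3 := mat_coords (lieD T E) (fun f X hX => hT.tan_map' hET h1 h2 f hX) hC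
    clear hC
    induction h3 using Submodule.span_induction with
    | mem C hC =>
      by_contra hcon
      obtain ⟨b, hb1, hb2, hb3⟩ := exists_form2 (s := lieB T E)
        (fun f X hX => hT.tan_map hET h1 h2 f hX) hcon
      apply hb3
      have hval : ∀ (X X' : Matrix ι ι ℂ), X ∈ Bs → X' * X = 1 → ∃ c : ℂ, c ≠ 0 ∧
          ∑ x, ∑ y, b x y * (X' * C * X) x y =
            c * MvPolynomial.eval (fun b => X b.1 b.2) (qp (Sᵀ * b) (S'' * C)) := by
        intro X X' hX hX'
        obtain ⟨c, hc, h4⟩ := hinv X X' hX hX'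
        refine ⟨c, hc, ?_⟩
        have h5 : X' * C * X = c • (S * (Xᵀ * (S'' * C) * X)) := by
          rw [h4, Matrix.smul_mul, Matrix.smul_mul]
          simp only [Matrix.mul_assoc]
        rw [h5, eval_qp, ← sum_mul_left, Finset.mul_sum]
        refine Finset.sum_congr rfl fun x _ => ?_
        rw [Finset.mul_sum]
        refine Finset.sum_congr rfl fun y _ => ?_
        rw [Matrix.smul_apply, smul_eq_mul]
        ring
      have hEz : MvPolynomial.eval (fun b => E b.1 b.2) (qp (Sᵀ * b) (S'' * C)) = 0 := by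
        obtain ⟨c, hc, h4⟩ := hval E E' hEB h2
        have h5 : E' * C * E ∈ lieB T E := by
          rw [mem_lieB, Matrix.mul_assoc E', ← Matrix.mul_assoc E, h1, Matrix.one_mul]
          exact hC.1
        rw [hb2 _ h5] at h4
        rcases mul_eq_zero.1 h4.symm with h | h
        · exact absurd h hc
        · exact h
      have hz := hrel (qp (Sᵀ * b) (S'' * C))
        (coeff_qp (mul_mem_K (M := Sᵀ) (fun i j => hS j i) hb1) (mul_mem_K hS'' hC.2))
        (deg_qp _ _) hEz _ hu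
      obtain ⟨c, hc, h4⟩ := hval (E * u) (u' * E') hu (by
        rw [Matrix.mul_assoc, ← Matrix.mul_assoc E', h2, Matrix.one_mul, hu2])
      rw [hz, mul_zero] at h4
      rw [← h4]
      simp only [Matrix.mul_assoc]
    | zero =>
      rw [Matrix.mul_zero, Matrix.zero_mul, Matrix.mul_zero, Matrix.zero_mul]
      exact Submodule.zero_mem _
    | add X Y _ _ h2 h3 =>
      rw [Matrix.mul_add, Matrix.add_mul, Matrix.mul_add, Matrix.add_mul]
      exact Submodule.add_mem _ h2 h3
    | smul c X _ h2 =>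
      rw [Matrix.mul_smul, Matrix.smul_mul, Matrix.mul_smul, Matrix.smul_mul]
      exact Submodule.smul_mem _ _ h2
  have h3 := key (E * Y * E') (by
    rw [mem_lieD, Matrix.mul_assoc (E * Y), h2, Matrix.mul_one]
    exact hY)
  have h4 : u' * (E' * (E * Y * E') * E) * u = u' * Y * u := by
    calc u' * (E' * (E * Y * E') * E) * u = u' * ((E' * E) * Y * (E' * E)) * u := by
          simp only [Matrix.mul_assoc]
      _ = _ := by rw [h2, Matrix.one_mul, Matrix.mul_one]
  rwa [h4] at h3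

end Pool.Agent.TH119.TO
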