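import Mathlib
import Pool.Agent.TH119.TO.Normal

/-!
# Connected torsors are irreducible; descent of relations to a smaller field
-/

set_option linter.unusedSectionVars false

namespace Pool.Agent.TH119.TO

open Finset Matrix Pool.Agent.W437.HK Pool.Agent.TH119.DR Pool.Agent.TH119.MX NormedSpace

variable {ι : Type*} [Fintype ι] [DecidableEq ι]

theorem Tors.mono {F K : Subfield ℂ} (hFK : F ≤ K) {T : Set (Matrix ι ι ℂ)} (hT : Tors F T) :
    Tors K T := by
  refine ⟨hT.inv, hT.tri, ?_⟩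
  obtain ⟨I, h1, h2⟩ := hT.alg
  exact ⟨I, fun p hp m => hFK (h1 p hp m), h2⟩

theorem Tors.inter {K : Subfield ℂ} {T T' : Set (Matrix ι ι ℂ)} (hT : Tors K T)
    (hT' : Tors K T') : Tors K (T ∩ T') := by
  refine ⟨fun x hx => hT.inv x hx.1, fun x hx y hy z hz y' h1 h2 =>
    ⟨hT.tri x hx.1 y hy.1 z hz.1 y' h1 h2, hT'.tri x hx.2 y hy.2 z hz.2 y' h1 h2⟩, ?_⟩
  obtain ⟨I, h1, h2⟩ := hT.alg
  obtain ⟨I', h1', h2'⟩ := hT'.alg
  refine ⟨I ∪ I', fun p hp m => ?_, fun g => ?_⟩
  · rcases hp with hp | hp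
    · exact h1 p hp m
    · exact h1' p hp m
  · constructor
    · rintro ⟨h3, h4⟩
      refine ⟨((h2 g).1 h3).1, fun p hp => ?_⟩
      rcases hp with hp | hp
      · exact ((h2 g).1 h3).2 p hp
      · exact ((h2' g).1 h4).2 p hp
    · rintro ⟨h3, h4⟩
      exact ⟨(h2 g).2 ⟨h3, fun p hp => h4 p (Or.inl hp)⟩,
        (h2' g).2 ⟨h3, fun p hp => h4 p (Or.inr hp)⟩⟩

/-- Products of exponentials of elements of the Lie algebra. -/
def Gen (T : Set (Matrix ι ι ℂ)) (u : Matrix ι ι ℂ) : Prop :=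
  ∃ L : List (Matrix ι ι ℂ), (∀ X ∈ L, ∀ d, Stab T d X) ∧ (L.map fun X => exp X).prod = u

/-- The torsor is connected. -/
def Conn (T : Set (Matrix ι ι ℂ)) (E : Matrix ι ι ℂ) : Prop :=
  ∀ u, E * u ∈ T → Gen T u

theorem pres_list {T : Set (Matrix ι ι ℂ)} (L : List (Matrix ι ι ℂ))
    (hL : ∀ X ∈ L, ∀ d, Stab T d X) : Pres T (L.map fun X => exp X).prod := by
  induction L with
  | nil =>
    rw [List.map_nil, List.prod_nil]
    intro d w hw
    rw [pull_mem_Wt]
    intro Y hY
    rw [Matrix.mul_one]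
    exact hw Y hY
  | cons X L ih =>
    rw [List.map_cons, List.prod_cons]
    exact (Pres.exp (hL X List.mem_cons_self)).mul
      (ih fun Y hY => hL Y (List.mem_cons_of_mem X hY))

theorem list_inv (L : List (Matrix ι ι ℂ)) :
    ∃ v : Matrix ι ι ℂ, (L.map fun X => exp X).prod * v = 1 := by
  induction L with
  | nil => exact ⟨1, by rw [List.map_nil, List.prod_nil, Matrix.one_mul]⟩
  | cons X L ih =>
    obtain ⟨v, hv⟩ := ih
    refine ⟨v * exp (-X), ?_⟩
    rw [List.map_cons, List.prod_cons, Matrix.mul_assoc, ← Matrix.mul_assoc _ v, hv,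
      Matrix.one_mul, (exp_mul_exp_neg X).1]

theorem Tors.list_mem {K : Subfield ℂ} {T : Set (Matrix ι ι ℂ)} (hT : Tors K T)
    {Y : Matrix ι ι ℂ} (hY : Y ∈ T) (L : List (Matrix ι ι ℂ))
    (hL : ∀ X ∈ L, ∀ d, Stab T d X) : Y * (L.map fun X => exp X).prod ∈ T := by
  obtain ⟨v, hv⟩ := list_inv L
  exact hT.mem_of_pres hY (pres_list L hL) hv (mul_eq_one_comm.1 hv)

/-- A polynomial along a product of one-parameter groups. -/
theorem differentiable_poly (Y : Matrix ι ι ℂ) (L : List (Matrix ι ι ℂ))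
    (p : MvPolynomial (ι × ι) ℂ) : Differentiable ℂ (fun s : ℂ =>
      MvPolynomial.eval (fun b => (Y * (L.map fun X => exp (s • X)).prod) b.1 b.2) p) := by
  have h1 : ∀ (L : List (Matrix ι ι ℂ)) (i j : ι), Differentiable ℂ (fun s : ℂ =>
      ((L.map fun X => exp (s • X)).prod) i j) := by
    intro L
    induction L with
    | nil =>
      intro i j
      simp only [List.map_nil, List.prod_nil]
      exact differentiable_const _
    | cons X L ih =>
      intro i j
      simp only [List.map_cons, List.prod_cons, Matrix.mul_apply]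
      refine Differentiable.fun_sum fun k _ => Differentiable.fun_mul ?_ (ih k j)
      intro s
      have h2 := (hasDerivAt_exp_entry 1 X s i k).differentiableAt
      simp only [Matrix.one_mul] at h2
      exact h2
  have h2 : ∀ i j, Differentiable ℂ (fun s : ℂ =>
      (Y * (L.map fun X => exp (s • X)).prod) i j) := by
    intro i j
    simp only [Matrix.mul_apply]
    exact Differentiable.fun_sum fun k _ => (h1 L k j).const_mul _
  simp only [MvPolynomial.eval_eq]
  refine Differentiable.fun_sum fun m _ => ?_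
  refine Differentiable.const_mul ?_ _
  refine Differentiable.fun_finsetProd fun i _ => ?_
  exact (h2 i.1 i.2).pow _

/-- Connected torsors are irreducible. -/
theorem irr {K : Subfield ℂ} {T : Set (Matrix ι ι ℂ)} (hT : Tors K T) {E : Matrix ι ι ℂ}
    (hE : E ∈ T) (hconn : Conn T E) {α : Type*} [DecidableEq α] (s : Finset α)
    (q : α → MvPolynomial (ι × ι) ℂ)
    (h : ∀ i ∈ s, ∃ X ∈ T, MvPolynomial.eval (fun b => X b.1 b.2) (q i) ≠ 0) :
    ∃ X ∈ T, MvPolynomial.eval (fun b => X b.1 b.2) (∏ i ∈ s, q i) ≠ 0 := by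
  induction s using Finset.induction_on with
  | empty => exact ⟨E, hE, by simp⟩
  | insert a s ha ih =>
    obtain ⟨X, hX, hX1⟩ := ih fun i hi => h i (Finset.mem_insert_of_mem hi)
    obtain ⟨Y, hY, hY1⟩ := h a (Finset.mem_insert_self a s)
    obtain ⟨X', hX3, hX4⟩ := hT.inv X hX
    obtain ⟨L, hL1, hL2⟩ := hconn (X' * Y) (by
      rw [← Matrix.mul_assoc]
      exact hT.tri E hE X hX Y hY X' hX3 hX4)
    have hXY : X * (L.map fun Z => exp Z).prod = Y := by
      rw [hL2, ← Matrix.mul_assoc, hX3, Matrix.one_mul]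
    have hf := differentiable_poly X L (∏ i ∈ s, q i)
    have hg := differentiable_poly X L (q a)
    have hmem : ∀ z : ℂ, X * (L.map fun Z => exp (z • Z)).prod ∈ T := by
      intro z
      have h5 := hT.list_mem hX (L.map fun Z => z • Z) (fun W hW => by
        obtain ⟨Z, hZ, rfl⟩ := List.mem_map.1 hW
        exact fun d => (hL1 Z hZ d).smul z)
      rw [List.map_map] at h5
      exact h5
    obtain ⟨z, hz⟩ : ∃ z : ℂ,
        MvPolynomial.eval (fun b => (X * (L.map fun Z => exp (z • Z)).prod) b.1 b.2)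
          (∏ i ∈ s, q i) *
        MvPolynomial.eval (fun b => (X * (L.map fun Z => exp (z • Z)).prod) b.1 b.2) (q a) ≠ 0 := by
      by_contra hcon
      push Not at hcon
      rcases AnalyticOnNhd.eq_zero_or_eq_zero_of_mul_eq_zero (U := Set.univ)
        (hf.differentiableOn.analyticOnNhd isOpen_univ)
        (hg.differentiableOn.analyticOnNhd isOpen_univ) (fun z _ => hcon z)
        isPreconnected_univ with h6 | h6
      · apply hX1
        have h7 := h6 0 (Set.mem_univ _)
        have h8 : (L.map fun Z => exp ((0 : ℂ) • Z)).prod = (1 : Matrix ι ι ℂ) := by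
          apply List.prod_eq_one
          intro M hM
          obtain ⟨Z, _, rfl⟩ := List.mem_map.1 hM
          rw [zero_smul, exp_zero]
        simp only [h8, Matrix.mul_one] at h7
        exact h7
      · apply hY1
        have h7 := h6 1 (Set.mem_univ _)
        simp only [one_smul, hXY] at h7
        exact h7
    refine ⟨_, hmem z, ?_⟩
    rw [Finset.prod_insert ha, map_mul, mul_comm]
    exact hz

theorem eval_aut {σ : Type*} (τ : ℂ ≃+* ℂ) (p : MvPolynomial σ ℂ) (x : σ → ℂ) :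
    MvPolynomial.eval (fun b => τ (x b)) (MvPolynomial.map (τ : ℂ →+* ℂ) p) =
      τ (MvPolynomial.eval x p) := by
  rw [MvPolynomial.eval_map]
  have h := MvPolynomial.eval₂_comp_left (τ : ℂ →+* ℂ) (RingHom.id ℂ) x p
  rw [RingHom.comp_id] at h
  exact h.symm

/-- Relations over a finite extension. -/
theorem norelB {F : Subfield ℂ} (K : IntermediateField F ℂ) [FiniteDimensional F K]
    {n D : ℕ} (hD : Module.finrank F K ≤ D) {T : Set (Matrix ι ι ℂ)} (hT : Tors F T)
    {E : Matrix ι ι ℂ} (hET : E ∈ T) (hconn : Conn T E)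
    (hE : NoRelB F (n * D) E T) : NoRelB K.toSubfield n E T := by
  classical
  intro p hp hdeg hpE
  obtain ⟨p0, hp0⟩ : ∃ p0 : MvPolynomial (ι × ι) K,
      MvPolynomial.map (K.val : K →+* ℂ) p0 = p := by
    have h1 : p ∈ (MvPolynomial.map (σ := ι × ι)
        (K.val : K →+* ℂ)).range := by
      rw [MvPolynomial.as_sum p]
      refine sum_mem fun m _ => ?_
      exact ⟨MvPolynomial.monomial m (⟨p.coeff m, hp m⟩ : K), by
        rw [MvPolynomial.map_monomial]
        rfl⟩
    exact h1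
  let P : (K →ₐ[F] ℂ) → MvPolynomial (ι × ι) ℂ := fun φ =>
    MvPolynomial.map (φ : K →+* ℂ) p0
  let O : Finset (K →ₐ[F] ℂ) := Finset.univ.filter fun φ =>
    ∃ τ : ℂ ≃+* ℂ, (∀ x ∈ F, τ x = x) ∧ ∀ x : K, φ x = τ x
  have hmem : ∀ φ, φ ∈ O ↔ ∃ τ : ℂ ≃+* ℂ, (∀ x ∈ F, τ x = x) ∧ ∀ x : K, φ x = τ x := fun φ => by
    simp only [O, Finset.mem_filter, Finset.mem_univ, true_and]
  let N := ∏ φ ∈ O, P φ
  -- the degree
  have hdegP : ∀ φ, (P φ).totalDegree ≤ n := by
    intro φ
    have h1 : p.totalDegree = p0.totalDegree := by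
      rw [← hp0]
      unfold MvPolynomial.totalDegree
      rw [MvPolynomial.support_map_of_injective _ (RingHom.injective _)]
    rw [h1] at hdeg
    refine le_trans ?_ hdeg
    unfold MvPolynomial.totalDegree
    exact Finset.sup_mono (MvPolynomial.support_map_subset _ _)
  have hN1 : N.totalDegree ≤ n * D := by
    refine (MvPolynomial.totalDegree_finsetProd _ _).trans ?_
    refine (Finset.sum_le_sum fun φ _ => hdegP φ).trans ?_
    rw [Finset.sum_const, smul_eq_mul, mul_comm]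
    refine Nat.mul_le_mul le_rfl ?_
    refine (Finset.card_le_univ _).trans ?_
    rw [AlgHom.card]
    exact hD
  -- the coefficients
  let comp : (τ : ℂ ≃+* ℂ) → (∀ x ∈ F, τ x = x) → (K →ₐ[F] ℂ) → (K →ₐ[F] ℂ) := fun τ hτ φ =>
    { (τ : ℂ →+* ℂ).comp (φ : K →+* ℂ) with
      commutes' := fun x => by
        change τ (φ (algebraMap F K x)) = algebraMap F ℂ x
        rw [φ.commutes]
        exact hτ _ x.2 }
  have hcompO : ∀ (τ : ℂ ≃+* ℂ) (hτ : ∀ x ∈ F, τ x = x) φ, φ ∈ O → comp τ hτ φ ∈ O := by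
    intro τ hτ φ hφ
    obtain ⟨σ, hσ1, hσ2⟩ := (hmem φ).1 hφ
    refine (hmem _).2 ⟨σ.trans τ, fun x hx => ?_, fun x => ?_⟩
    · rw [RingEquiv.trans_apply, hσ1 x hx, hτ x hx]
    · rw [RingEquiv.trans_apply, ← hσ2]
      rfl
  have hcompP : ∀ (τ : ℂ ≃+* ℂ) (hτ : ∀ x ∈ F, τ x = x) φ,
      P (comp τ hτ φ) = MvPolynomial.map (τ : ℂ →+* ℂ) (P φ) := by
    intro τ hτ φ
    change MvPolynomial.map _ p0 = MvPolynomial.map _ (MvPolynomial.map _ p0)
    rw [MvPolynomial.map_map]
    rfl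
  have hN2 : ∀ m, N.coeff m ∈ F := by
    intro m
    by_contra hcon
    obtain ⟨τ, hτ, hne⟩ := exists_move hcon
    have hτ' : ∀ x ∈ F, τ.symm x = x := fun x hx => by
      rw [RingEquiv.symm_apply_eq, hτ x hx]
    apply hne
    have h1 : MvPolynomial.map (τ : ℂ →+* ℂ) N = N := by
      change MvPolynomial.map (τ : ℂ →+* ℂ) (∏ φ ∈ O, P φ) = ∏ φ ∈ O, P φ
      rw [map_prod]
      refine Finset.prod_bij' (fun φ _ => comp τ hτ φ) (fun φ _ => comp τ.symm hτ' φ)
        (fun φ hφ => hcompO τ hτ φ hφ) (fun φ hφ => hcompO τ.symm hτ' φ hφ) ?_ ?_ ?_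
      · intro φ _
        ext x
        change τ.symm (τ (φ x)) = φ x
        rw [RingEquiv.symm_apply_apply]
      · intro φ _
        ext x
        change τ (τ.symm (φ x)) = φ x
        rw [RingEquiv.apply_symm_apply]
      · intro φ _
        exact (hcompP τ hτ φ).symm
    have h2 := congrArg (fun q => MvPolynomial.coeff m q) h1
    simp only [MvPolynomial.coeff_map] at h2
    exact h2
  -- the value at the period matrix
  have hval : (K.val : K →ₐ[F] ℂ) ∈ O :=
    (hmem _).2 ⟨RingEquiv.refl ℂ, fun _ _ => rfl, fun _ => rfl⟩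
  have hN3 : MvPolynomial.eval (fun b => E b.1 b.2) N = 0 := by
    change MvPolynomial.eval (fun b => E b.1 b.2) (∏ φ ∈ O, P φ) = 0
    rw [map_prod]
    refine Finset.prod_eq_zero hval ?_
    change MvPolynomial.eval (fun b => E b.1 b.2) (MvPolynomial.map (K.val : K →+* ℂ) p0) = 0
    rw [hp0, hpE]
  have hN4 := hE N hN2 hN1 hN3
  obtain ⟨φ, hφ, hφ2⟩ : ∃ φ ∈ O, ∀ X ∈ T, MvPolynomial.eval (fun b => X b.1 b.2) (P φ) = 0 := by
    by_contra hcon
    push Not at hcon
    obtain ⟨X, hX, hX2⟩ := irr hT hET hconn O P hcon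
    exact hX2 (hN4 X hX)
  obtain ⟨τ, hτ1, hτ2⟩ := (hmem φ).1 hφ
  intro X hX
  have h1 : P φ = MvPolynomial.map (τ : ℂ →+* ℂ) p := by
    have h5 : (φ : K →+* ℂ) = (τ : ℂ →+* ℂ).comp (K.val : K →+* ℂ) := by
      refine RingHom.ext fun x => ?_
      exact hτ2 x
    rw [← hp0, MvPolynomial.map_map, ← h5]
  have h2 := hφ2 _ (hT.map_aut hτ1 hX)
  rw [h1] at h2
  have h3 := eval_aut τ p (fun b => X b.1 b.2)
  have h4 : τ (MvPolynomial.eval (fun b => X b.1 b.2) p) = 0 := by
    rw [← h3]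
    exact h2
  rwa [map_eq_zero_iff τ τ.injective] at h4

end Pool.Agent.TH119.TO
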