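import Mathlib
import Pool.Agent.TH119.TO.IrrB
import Pool.Agent.TH119.MX.Third

/-!
# Quadratic relations decide
-/

set_option linter.unusedSectionVars false

namespace Pool.Agent.TH119.TO

open Finset Matrix Pool.Agent.W437.HK Pool.Agent.TH119.DR Pool.Agent.TH119.MX NormedSpace

variable {ι : Type*} [Fintype ι] [DecidableEq ι]

/-- A subspace which is stable under conjugation by one-parameter groups is stable under
brackets. -/
theorem bracket_mem (W : Submodule ℂ (Matrix ι ι ℂ)) {X Y : Matrix ι ι ℂ}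
    (h : ∀ t : ℂ, exp (-(t • Y)) * X * exp (t • Y) ∈ W) : X * Y - Y * X ∈ W := by
  by_contra hcon
  obtain ⟨ψ, hψ1, hψ2⟩ := Submodule.exists_le_ker_of_notMem hcon
  apply hψ1
  have h1 : ∀ M : Matrix ι ι ℂ, ψ M = ∑ x, ∑ y, ψ (Matrix.single x y 1) * M x y := form_eq ψ
  have h2 : ∀ i j, HasDerivAt (fun s : ℂ => (exp (-(s • Y)) * X * exp (s • Y)) i j)
      ((X * Y - Y * X) i j) 0 := by
    intro i j
    have ha : ∀ k, HasDerivAt (fun s : ℂ => (exp (-(s • Y)) * X) i k) ((-(Y * X)) i k) 0 := by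
      intro k
      have hb : ∀ l, HasDerivAt (fun s : ℂ => (exp (-(s • Y))) i l) ((-Y) i l) 0 := by
        intro l
        have hc := hasDerivAt_exp_entry 1 (-Y) 0 i l
        simp only [Matrix.one_mul, zero_smul, exp_zero] at hc
        simpa only [smul_neg] using hc
      have hd := HasDerivAt.fun_sum (u := Finset.univ) fun l _ => (hb l).mul_const (X l k)
      have he : (-(Y * X)) i k = ∑ l, (-Y) i l * X l k := by
        rw [← Matrix.mul_apply, Matrix.neg_mul]
      rw [he]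
      have hf : (fun s : ℂ => (exp (-(s • Y)) * X) i k) =
          fun s : ℂ => ∑ l, (exp (-(s • Y))) i l * X l k := by
        funext s
        rw [Matrix.mul_apply]
      rw [hf]
      exact hd
    have hb : ∀ k, HasDerivAt (fun s : ℂ => (exp (s • Y)) k j) (Y k j) 0 := by
      intro k
      have hc := hasDerivAt_exp_entry 1 Y 0 k j
      simp only [Matrix.one_mul, zero_smul, exp_zero] at hc
      exact hc
    have hfun : (fun s : ℂ => (exp (-(s • Y)) * X * exp (s • Y)) i j) =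
        fun s : ℂ => ∑ k, (exp (-(s • Y)) * X) i k * (exp (s • Y)) k j := by
      funext s
      rw [Matrix.mul_apply]
    rw [hfun]
    have hd := HasDerivAt.fun_sum (u := Finset.univ) fun k _ => (ha k).mul (hb k)
    have he : (X * Y - Y * X) i j = ∑ k, ((-(Y * X)) i k * (exp ((0 : ℂ) • Y)) k j +
        (exp (-((0 : ℂ) • Y)) * X) i k * Y k j) := by
      rw [zero_smul, neg_zero, exp_zero, Matrix.one_mul, Finset.sum_add_distrib,
        ← Matrix.mul_apply, ← Matrix.mul_apply, Matrix.mul_one, Matrix.sub_apply,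
        Matrix.neg_apply]
      ring
    rw [he]
    exact hd
  have h3 : HasDerivAt (fun s : ℂ => ψ (exp (-(s • Y)) * X * exp (s • Y)))
      (ψ (X * Y - Y * X)) 0 := by
    have hf : (fun s : ℂ => ψ (exp (-(s • Y)) * X * exp (s • Y))) = fun s : ℂ =>
        ∑ x, ∑ y, ψ (Matrix.single x y 1) * (exp (-(s • Y)) * X * exp (s • Y)) x y := by
      funext s
      exact h1 _
    rw [hf, h1 (X * Y - Y * X)]
    exact HasDerivAt.fun_sum fun x _ => HasDerivAt.fun_sum fun y _ => (h2 x y).const_mul _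
  have h4 : (fun s : ℂ => ψ (exp (-(s • Y)) * X * exp (s • Y))) = fun _ => 0 := by
    funext s
    exact LinearMap.mem_ker.1 (hψ2 (h s))
  rw [h4] at h3
  exact h3.unique (hasDerivAt_const (0 : ℂ) (0 : ℂ))

variable {K : Subfield ℂ} {T Bs : Set (Matrix ι ι ℂ)} {E E' : Matrix ι ι ℂ}

theorem mem_lieB_stab (hT : Tors K T) (hET : E ∈ T) (h1 : E * E' = 1) (h2 : E' * E = 1)
    {X : Matrix ι ι ℂ} : X ∈ lieB T E ↔ ∀ d, Stab T d X :=
  (hT.stab_iff hET h1 h2).symm

/-- Stability of a subspace under the group of the torsor. -/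
def AdStable (Bs : Set (Matrix ι ι ℂ)) (E : Matrix ι ι ℂ) (W : Submodule ℂ (Matrix ι ι ℂ)) :
    Prop :=
  ∀ u u' : Matrix ι ι ℂ, E * u ∈ Bs → u * u' = 1 → u' * u = 1 → ∀ X ∈ W, u' * X * u ∈ W

theorem AdStable.bracket (hB : Tors K Bs) (hEB : E ∈ Bs) (h1 : E * E' = 1) (h2 : E' * E = 1)
    {W : Submodule ℂ (Matrix ι ι ℂ)} (hW : AdStable Bs E W) {X Y : Matrix ι ι ℂ} (hX : X ∈ W)
    (hY : Y ∈ lieB Bs E) : X * Y - Y * X ∈ W := by
  refine bracket_mem W fun t => ?_
  refine hW _ _ ?_ (exp_mul_exp_neg _).1 (exp_mul_exp_neg _).2 X hX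
  exact hB.exp_mem hEB fun d => ((mem_lieB_stab hB hEB h1 h2).1 hY d).smul t

/-- The Lie algebra of the torsor is stable under its group. -/
theorem adStable_lieB (hB : Tors K Bs) (hEB : E ∈ Bs) (h1 : E * E' = 1) (h2 : E' * E = 1) :
    AdStable Bs E (lieB Bs E) := by
  intro u u' hu hu1 hu2 X hX
  rw [mem_lieB_stab hB hEB h1 h2] at hX ⊢
  have hX' := (hB.stab_iff_exp hEB h1 h2).1 hX
  rw [hB.stab_iff_exp hEB h1 h2]
  intro t
  -- `E exp(t u' X u) = E u' exp(t X) u`
  have h3 : exp (t • (u' * X * u)) = u' * exp (t • X) * u := by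
    have h4 : t • (u' * X * u) = u' * (t • X) * u := by
      rw [Matrix.mul_smul, Matrix.smul_mul]
    have h5 : u = u'⁻¹ := (Matrix.inv_eq_right_inv hu2).symm
    have h6 : IsUnit u' := ⟨⟨u', u, hu2, hu1⟩, rfl⟩
    rw [h4]
    conv_lhs => rw [h5]
    rw [Matrix.exp_conj u' (t • X) h6, ← h5]
  rw [h3]
  have h7 : E * (u' * exp (t • X) * u) = E * (u' * E') * (E * exp (t • X)) * E' * (E * u) := by
    calc E * (u' * exp (t • X) * u) = E * u' * (exp (t • X)) * u := by
          simp only [Matrix.mul_assoc]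
      _ = E * u' * ((E' * E) * exp (t • X)) * ((E' * E) * u) := by
          rw [h2, Matrix.one_mul, Matrix.one_mul]
      _ = _ := by simp only [Matrix.mul_assoc]
  rw [h7]
  have h8 : E * (u' * E') * (E * exp (t • X)) ∈ Bs :=
    hB.tri E hEB (E * u) hu _ (hX' t) (u' * E') (by
      rw [Matrix.mul_assoc, ← Matrix.mul_assoc u, hu1, Matrix.one_mul, h1]) (by
      rw [Matrix.mul_assoc, ← Matrix.mul_assoc E', h2, Matrix.one_mul, hu2])
  exact hB.tri _ h8 E hEB _ hu E' h1 h2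

theorem trace_bracket (X Y : Matrix ι ι ℂ) : (X * Y - Y * X).trace = 0 := by
  rw [Matrix.trace_sub, Matrix.trace_mul_comm, sub_self]

/-- The logarithmic derivative has a nonzero trace. -/
theorem trace_log_der [Nonempty ι] {S S' S'' : Matrix ι ι ℂ} (hS : ∀ i j, IsAlgebraic ℚ (S i j))
    (hS' : ∀ i j, IsAlgebraic ℚ (S' i j)) (hSS : S' * S'' = 1) {lam : ℂ}
    (hE : E * S * Eᵀ = lam • S') (h2 : E' * E = 1) (δ : Derivation ℚ ℂ ℂ)
    (hδ : δ lam ≠ 0) : (E' * E.map δ).trace ≠ 0 := by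
  have hSm : S.map δ = 0 := by
    ext i j
    exact deriv_alg δ (hS i j)
  have h3 : E.map δ * S * Eᵀ + E * S * (E.map δ)ᵀ = δ lam • S' := by
    have h4 := congrArg (fun M : Matrix ι ι ℂ => M.map δ) hE
    rw [map_mul_der, map_mul_der, hSm, Matrix.mul_zero, add_zero, Matrix.transpose_map] at h4
    rw [h4]
    ext i j
    rw [Matrix.map_apply, Matrix.smul_apply, Matrix.smul_apply, smul_eq_mul, Derivation.leibniz,
      deriv_alg δ (hS' i j), smul_zero, zero_add, smul_eq_mul, smul_eq_mul, mul_comm]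
  -- multiply by the inverse of `S'`
  have h4 : (E.map δ * S * Eᵀ * S'').trace = lam * (E' * E.map δ).trace := by
    have h5 : S * Eᵀ * S'' = lam • E' := by
      calc S * Eᵀ * S'' = E' * (E * S * Eᵀ) * S'' := by
            simp only [← Matrix.mul_assoc]
            rw [h2, Matrix.one_mul]
        _ = _ := by
            rw [hE, Matrix.mul_smul, Matrix.smul_mul, Matrix.mul_assoc, hSS, Matrix.mul_one]
    have h6 : E.map δ * S * Eᵀ * S'' = E.map δ * (S * Eᵀ * S'') := by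
      simp only [Matrix.mul_assoc]
    rw [h6, h5, Matrix.mul_smul, Matrix.trace_smul, Matrix.trace_mul_comm, smul_eq_mul]
  have h5 : (E * S * (E.map δ)ᵀ * S'').trace = lam * (E' * E.map δ).trace := by
    have h6 : E * S = lam • (S' * E'ᵀ) := by
      have h7 : Eᵀ * E'ᵀ = 1 := by rw [← Matrix.transpose_mul, h2, Matrix.transpose_one]
      calc E * S = E * S * Eᵀ * E'ᵀ := by rw [Matrix.mul_assoc _ Eᵀ, h7, Matrix.mul_one]
        _ = _ := by rw [hE, Matrix.smul_mul]
    have h8 : S'' * S' = 1 := mul_eq_one_comm.1 hSS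
    rw [h6, Matrix.trace_mul_comm, Matrix.smul_mul, Matrix.mul_smul, Matrix.trace_smul,
      smul_eq_mul]
    congr 1
    have h9 : S'' * (S' * E'ᵀ * (E.map δ)ᵀ) = (E.map δ * E')ᵀ := by
      rw [← Matrix.mul_assoc, ← Matrix.mul_assoc, h8, Matrix.one_mul, Matrix.transpose_mul]
    rw [h9, Matrix.trace_transpose, Matrix.trace_mul_comm]
  have h6 : (E.map δ * S * Eᵀ * S'' + E * S * (E.map δ)ᵀ * S'').trace =
      δ lam * (Fintype.card ι : ℂ) := by
    rw [← Matrix.add_mul, h3, Matrix.smul_mul, hSS, Matrix.trace_smul, Matrix.trace_one,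
      smul_eq_mul]
  rw [Matrix.trace_add, h4, h5] at h6
  intro h7
  rw [h7, mul_zero, add_zero] at h6
  have h8 : (Fintype.card ι : ℂ) ≠ 0 := Nat.cast_ne_zero.2 Fintype.card_ne_zero
  exact (mul_ne_zero hδ h8) h6.symm

/-- The conjugate of an algebraic matrix which commutes with the logarithmic derivatives. -/
theorem alg_conj (h1 : E * E' = 1) (h2 : E' * E = 1) {X : Matrix ι ι ℂ}
    (hX : ∀ i j, IsAlgebraic ℚ (X i j))
    (hc : ∀ δ : Derivation ℚ ℂ ℂ, X * (E' * E.map δ) = E' * E.map δ * X) (i j : ι) :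
    IsAlgebraic ℚ ((E * X * E') i j) := by
  by_contra hcon
  obtain ⟨δ, hδ⟩ := exists_deriv hcon
  apply hδ
  have hXm : X.map δ = 0 := by
    ext i j
    exact deriv_alg δ (hX i j)
  have h3 : E.map δ * E' + E * E'.map δ = 0 := by
    rw [← map_mul_der, h1]
    ext i j
    rw [Matrix.map_apply, Matrix.one_apply]
    split_ifs
    · exact Derivation.map_one_eq_zero δ
    · exact map_zero δ
  have h4 : E'.map δ = -(E' * E.map δ * E') := by
    have h5 : E' * (E.map δ * E' + E * E'.map δ) = 0 := by rw [h3, Matrix.mul_zero]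
    rw [Matrix.mul_add, ← Matrix.mul_assoc, ← Matrix.mul_assoc E', h2, Matrix.one_mul] at h5
    exact eq_neg_of_add_eq_zero_right h5
  have h5 : (E * X * E').map δ = 0 := by
    rw [map_mul_der, map_mul_der, hXm, Matrix.mul_zero, add_zero, h4]
    have h6 : E.map δ * X * E' = E * ((E' * E.map δ) * X) * E' := by
      rw [← Matrix.mul_assoc E, ← Matrix.mul_assoc E, h1, Matrix.one_mul]
    rw [h6, ← hc δ]
    simp only [Matrix.mul_assoc, Matrix.mul_neg]
    exact add_neg_cancel _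
  exact congrFun (congrFun h5 i) j

/-- The centralizer. -/
def cent (g h : Submodule ℂ (Matrix ι ι ℂ)) : Submodule ℂ (Matrix ι ι ℂ) where
  carrier := {X | X ∈ g ∧ ∀ Z ∈ h, X * Z = Z * X}
  zero_mem' := ⟨g.zero_mem, fun Z _ => by rw [Matrix.zero_mul, Matrix.mul_zero]⟩
  add_mem' := fun {a b} ha hb => ⟨g.add_mem ha.1 hb.1, fun Z hZ => by
    rw [Matrix.add_mul, Matrix.mul_add, ha.2 Z hZ, hb.2 Z hZ]⟩
  smul_mem' := fun c a ha => ⟨g.smul_mem c ha.1, fun Z hZ => by
    rw [Matrix.smul_mul, Matrix.mul_smul, ha.2 Z hZ]⟩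

theorem mem_cent {g h : Submodule ℂ (Matrix ι ι ℂ)} {X : Matrix ι ι ℂ} :
    X ∈ cent g h ↔ X ∈ g ∧ ∀ Z ∈ h, X * Z = Z * X := Iff.rfl

theorem cent_map {g h : Submodule ℂ (Matrix ι ι ℂ)}
    (hg : ∀ (f : ℂ →ₗ[K] ℂ), ∀ X ∈ g, X.map f ∈ g)
    (hh : ∀ (f : ℂ →ₗ[K] ℂ), ∀ X ∈ h, X.map f ∈ h) (f : ℂ →ₗ[K] ℂ) {X : Matrix ι ι ℂ}
    (hX : X ∈ cent g h) : X.map f ∈ cent g h := by
  refine ⟨hg f X hX.1, fun Z hZ => ?_⟩
  have h1 := mat_coords h hh hZ
  have h2 : X ∈ cent g h := hX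
  clear hZ
  induction h1 using Submodule.span_induction with
  | mem Z hZ =>
    rw [← map_mul_right f hZ.2, ← map_mul_left f hZ.2, h2.2 Z hZ.1]
  | zero => rw [Matrix.zero_mul, Matrix.mul_zero]
  | add Y Z _ _ h3 h4 => rw [Matrix.add_mul, Matrix.mul_add, h3, h4]
  | smul c Z _ h3 => rw [Matrix.smul_mul, Matrix.mul_smul, h3]

/-- The derived algebra. -/
def der (g : Submodule ℂ (Matrix ι ι ℂ)) : Submodule ℂ (Matrix ι ι ℂ) :=
  Submodule.span ℂ {M | ∃ X ∈ g, ∃ Y ∈ g, M = X * Y - Y * X}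

theorem trace_der {g : Submodule ℂ (Matrix ι ι ℂ)} {X : Matrix ι ι ℂ} (hX : X ∈ der g) :
    X.trace = 0 := by
  unfold der at hX
  induction hX using Submodule.span_induction with
  | mem M hM =>
    obtain ⟨X, _, Y, _, rfl⟩ := hM
    exact trace_bracket X Y
  | zero => exact Matrix.trace_zero _ _
  | add Y Z _ _ h3 h4 => rw [Matrix.trace_add, h3, h4, add_zero]
  | smul c Z _ h3 => rw [Matrix.trace_smul, h3, smul_zero]

/-- **The main theorem.** -/
theorem quad [Nonempty ι] {F : Subfield ℂ} (hF : ∀ x ∈ F, IsAlgebraic ℚ x)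
    (Kf : IntermediateField F ℂ) [FiniteDimensional F Kf] {D : ℕ}
    (hD : Module.finrank F Kf ≤ D) (hB : Tors F Bs) (hEB : E ∈ Bs) (h1 : E * E' = 1)
    (h2 : E' * E = 1) {S S' S'' : Matrix ι ι ℂ} (hS : ∀ i j, S i j ∈ F)
    (hS' : ∀ i j, S' i j ∈ F) (hS'' : ∀ i j, S'' i j ∈ F) (hSS : S' * S'' = 1)
    (hpol : ∀ X ∈ Bs, ∃ c : ℂ, c ≠ 0 ∧ X * S * Xᵀ = c • S') {lam : ℂ}
    (hE : E * S * Eᵀ = lam • S') (hlam : ¬ IsAlgebraic ℚ lam)
    (hconn : Conn Bs E)
    (hred : ∀ W ≤ lieB Bs E, AdStable Bs E W →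
      ∃ W' ≤ lieB Bs E, AdStable Bs E W' ∧ W ⊓ W' = ⊥ ∧ W ⊔ W' = lieB Bs E)
    (hper : ∀ W ≤ lieB Bs E, AdStable Bs E W →
      W ≤ Submodule.span ℂ {X | X ∈ W ∧ (∀ i j, IsAlgebraic ℚ (X i j)) ∧
        ∀ i j, IsAlgebraic ℚ ((E * X * E') i j)} → Module.finrank ℂ W ≤ 1)
    (hrel : NoRelB F (2 * D) E Bs) (hT : Tors Kf.toSubfield T) (hET : E ∈ T) : Bs ⊆ T := by
  have hFK : F ≤ Kf.toSubfield := fun x hx => Kf.algebraMap_mem ⟨x, hx⟩
  have hKalg : ∀ x ∈ Kf.toSubfield, IsAlgebraic ℚ x := by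
    intro x hx
    have _ : Algebra.IsAlgebraic ℚ F := ⟨fun y => by
      have := hF y y.2
      exact (isAlgebraic_algebraMap_iff (A := ℂ) (S := F) (R := ℚ) Subtype.val_injective).1 this⟩
    have h1 : IsAlgebraic F (⟨x, hx⟩ : Kf) := Algebra.IsAlgebraic.isAlgebraic _
    have h2 : IsAlgebraic F x := h1.algebraMap
    exact h2.restrictScalars ℚ
  have hBK : Tors Kf.toSubfield Bs := hB.mono hFK
  have hN : NoRelB Kf.toSubfield 2 E Bs := norelB Kf hD hB hEB hconn hrel
  have hT' : Tors Kf.toSubfield (T ∩ Bs) := hT.inter hBK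
  have hET' : E ∈ T ∩ Bs := ⟨hET, hEB⟩
  set g := lieB Bs E with hg
  set h := lieB (T ∩ Bs) E with hh
  have hhg : h ≤ g := by
    intro Y hY d w hw
    exact hY d w fun X hX => hw X hX.2
  have hAd : AdStable Bs E h := fun u u' hu hu1 hu2 X hX =>
    ad_stable hT' hET' h1 h2 (fun i j => hFK (hS i j)) (fun i j => hFK (hS'' i j)) hSS hEB hpol hN
      hu hu1 hu2 hX
  have hAdg : AdStable Bs E g := adStable_lieB hBK hEB h1 h2
  have hinv : ∀ u u' : Matrix ι ι ℂ, E * u ∈ Bs → u * u' = 1 → u' * u = 1 → E * u' ∈ Bs := by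
    intro u u' hu hu1 hu2
    have h3 := hBK.tri E hEB (E * u) hu E hEB (u' * E') (by
      rw [Matrix.mul_assoc, ← Matrix.mul_assoc u, hu1, Matrix.one_mul, h1]) (by
      rw [Matrix.mul_assoc, ← Matrix.mul_assoc E', h2, Matrix.one_mul, hu2])
    rwa [Matrix.mul_assoc, Matrix.mul_assoc u', h2, Matrix.mul_one] at h3
  have hder : ∀ δ : Derivation ℚ ℂ ℂ, E' * E.map δ ∈ h := by
    intro δ
    rw [hh, mem_lieB, ← Matrix.mul_assoc, h1, Matrix.one_mul]
    exact hT'.tan_der hKalg hET' δ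
  -- the centralizer has dimension at most one
  have hz : Module.finrank ℂ (cent g h) ≤ 1 := by
    refine hper (cent g h) (fun X hX => hX.1) ?_ ?_
    · intro u u' hu hu1 hu2 X hX
      refine ⟨hAdg u u' hu hu1 hu2 X hX.1, fun Z hZ => ?_⟩
      have h3 : u * Z * u' ∈ h := hAd u' u (hinv u u' hu hu1 hu2) hu2 hu1 Z hZ
      have h4 := hX.2 _ h3
      calc u' * X * u * Z = u' * (X * (u * Z * u')) * u := by
            simp only [Matrix.mul_assoc]
            rw [hu2, Matrix.mul_one]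
        _ = u' * (u * Z * u' * X) * u := by rw [h4]
        _ = (u' * u) * Z * (u' * X * u) := by simp only [Matrix.mul_assoc]
        _ = _ := by rw [hu2, Matrix.one_mul]
    · intro X hX
      have h3 := mat_coords (K := Kf.toSubfield) (cent g h)
        (fun f X hX => cent_map (fun f X hX => hBK.tan_map hEB h1 h2 f hX)
          (fun f X hX => hT'.tan_map hET' h1 h2 f hX) f hX) hX
      refine Submodule.span_mono ?_ h3
      rintro Y ⟨hY1, hY2⟩
      refine ⟨hY1, fun i j => hKalg _ (hY2 i j), fun i j => ?_⟩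
      exact alg_conj h1 h2 (fun i j => hKalg _ (hY2 i j)) (fun δ => hY1.2 _ (hder δ)) i j
  obtain ⟨k, hk1, hk2, hk3, hk4⟩ := hred h hhg hAd
  have hkz : k ≤ cent g h := by
    intro X hX
    refine ⟨hk1 hX, fun Z hZ => ?_⟩
    have h3 : X * Z - Z * X ∈ k := hk2.bracket hBK hEB h1 h2 hX (hhg hZ)
    have h4 : Z * X - X * Z ∈ h := hAd.bracket hBK hEB h1 h2 hZ (hk1 hX)
    have h5 : X * Z - Z * X ∈ h := by
      have h6 := h.neg_mem h4
      rwa [neg_sub] at h6
    have h6 : X * Z - Z * X ∈ h ⊓ k := ⟨h5, h3⟩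
    rw [hk3, Submodule.mem_bot] at h6
    exact sub_eq_zero.1 h6
  have hgh : g ≤ h := by
    by_contra hcon
    -- a nonzero element of the complement
    obtain ⟨w, hwk, hw0⟩ : ∃ w ∈ k, w ≠ 0 := by
      by_contra h3
      push Not at h3
      apply hcon
      have h4 : k = ⊥ := (Submodule.eq_bot_iff k).2 h3
      rw [← hk4, h4, sup_bot_eq]
    have hwh : w ∉ h := by
      intro h3
      apply hw0
      have h4 : w ∈ h ⊓ k := ⟨h3, hwk⟩
      rwa [hk3, Submodule.mem_bot] at h4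
    have hline : ∀ X ∈ cent g h, ∃ c : ℂ, X = c • w := by
      intro X hX
      have h3 : (⟨w, hkz hwk⟩ : cent g h) ≠ 0 := by
        intro h4
        exact hw0 (congrArg Subtype.val h4)
      obtain ⟨c, hc⟩ := (finrank_le_one_iff.1 hz) |>.elim fun v hv => by
        obtain ⟨a, ha⟩ := hv ⟨w, hkz hwk⟩
        obtain ⟨b, hb⟩ := hv ⟨X, hX⟩
        have ha0 : a ≠ 0 := by
          rintro rfl
          apply h3
          rw [← ha, zero_smul]
        exact (⟨b * a⁻¹, by
          rw [← ha, smul_smul, mul_assoc, inv_mul_cancel₀ ha0, mul_one, hb]⟩ :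
            ∃ c : ℂ, c • (⟨w, hkz hwk⟩ : cent g h) = ⟨X, hX⟩)
      exact ⟨c, (congrArg Subtype.val hc).symm⟩
    have hdec : ∀ X ∈ g, ∃ a ∈ h, ∃ c : ℂ, X = a + c • w := by
      intro X hX
      rw [← hk4] at hX
      obtain ⟨a, ha, b, hb, rfl⟩ := Submodule.mem_sup.1 hX
      obtain ⟨c, rfl⟩ := hline b (hkz hb)
      exact ⟨a, ha, c, rfl⟩
    have hwc : ∀ X ∈ g, w * X = X * w := by
      intro X hX
      obtain ⟨a, ha, c, rfl⟩ := hdec X hX
      rw [Matrix.mul_add, Matrix.add_mul, (hkz hwk).2 a ha, Matrix.mul_smul, Matrix.smul_mul]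
    obtain ⟨δ, hδ⟩ := exists_deriv hlam
    have hdg : der g ≤ g := by
      refine Submodule.span_le.2 ?_
      rintro _ ⟨X, hX, Y, hY, rfl⟩
      exact hAdg.bracket hBK hEB h1 h2 hX hY
    have hdA : AdStable Bs E (der g) := by
      intro u u' hu hu1 hu2 X hX
      unfold der at hX
      induction hX using Submodule.span_induction with
      | mem M hM =>
        obtain ⟨X, hX, Y, hY, rfl⟩ := hM
        refine Submodule.subset_span ⟨u' * X * u, hAdg u u' hu hu1 hu2 X hX, u' * Y * u,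
          hAdg u u' hu hu1 hu2 Y hY, ?_⟩
        have h3 : ∀ X Y : Matrix ι ι ℂ, u' * X * u * (u' * Y * u) = u' * (X * Y) * u := by
          intro X Y
          calc u' * X * u * (u' * Y * u) = u' * X * (u * u') * Y * u := by
                simp only [Matrix.mul_assoc]
            _ = _ := by rw [hu1, Matrix.mul_one]; simp only [Matrix.mul_assoc]
        rw [h3, h3, Matrix.mul_sub, Matrix.sub_mul]
      | zero => rw [Matrix.mul_zero, Matrix.zero_mul]; exact Submodule.zero_mem _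
      | add Y Z _ _ h3 h4 =>
        rw [Matrix.mul_add, Matrix.add_mul]
        exact Submodule.add_mem _ h3 h4
      | smul c Z _ h3 =>
        rw [Matrix.mul_smul, Matrix.smul_mul]
        exact Submodule.smul_mem _ _ h3
    have hdh : der g ≤ h := by
      refine Submodule.span_le.2 ?_
      rintro _ ⟨X, hX, Y, hY, rfl⟩
      obtain ⟨a, ha, c, rfl⟩ := hdec X hX
      obtain ⟨b, hb, c', rfl⟩ := hdec Y hY
      have h3 : (a + c • w) * (b + c' • w) - (b + c' • w) * (a + c • w) = a * b - b * a := by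
        simp only [Matrix.add_mul, Matrix.mul_add, Matrix.smul_mul, Matrix.mul_smul, smul_add]
        rw [hwc a (hhg ha), hwc b (hhg hb), smul_comm c c']
        abel
      change (a + c • w) * (b + c' • w) - (b + c' • w) * (a + c • w) ∈ h
      rw [h3]
      exact hAd.bracket hBK hEB h1 h2 ha (hhg hb)
    obtain ⟨q, hq1, hq2, hq3, hq4⟩ := hred (der g) hdg hdA
    have hqz : q ≤ cent g h := by
      intro X hX
      refine ⟨hq1 hX, fun Z hZ => ?_⟩
      have h3 : X * Z - Z * X ∈ q := hq2.bracket hBK hEB h1 h2 hX (hhg hZ)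
      have h4 : X * Z - Z * X ∈ der g := Submodule.subset_span ⟨X, hq1 hX, Z, hhg hZ, rfl⟩
      have h6 : X * Z - Z * X ∈ der g ⊓ q := ⟨h4, h3⟩
      rw [hq3, Submodule.mem_bot] at h6
      exact sub_eq_zero.1 h6
    have h3 := hhg (hder δ)
    rw [← hq4] at h3
    obtain ⟨a, ha, b, hb, hab⟩ := Submodule.mem_sup.1 h3
    obtain ⟨c, rfl⟩ := hline b (hqz hb)
    have h4 : c • w ∈ h := by
      have h5 : c • w = E' * E.map δ - a := by
        rw [← hab, add_sub_cancel_left]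
      rw [h5]
      exact h.sub_mem (hder δ) (hdh ha)
    by_cases hc : c = 0
    · rw [hc, zero_smul, add_zero] at hab
      have h5 := trace_der ha
      rw [hab] at h5
      exact trace_log_der (fun i j => hF _ (hS i j)) (fun i j => hF _ (hS' i j)) hSS hE h2 δ hδ h5
    · apply hwh
      have h5 := h.smul_mem c⁻¹ h4
      rwa [smul_smul, inv_mul_cancel₀ hc, one_smul] at h5
  intro X hX
  have h3 : E * (E' * X) = X := by rw [← Matrix.mul_assoc, h1, Matrix.one_mul]
  obtain ⟨L, hL1, hL2⟩ := hconn (E' * X) (by rw [h3]; exact hX)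
  have h4 := hT'.list_mem hET' L fun Z hZ => by
    rw [← mem_lieB_stab hT' hET' h1 h2]
    apply hgh
    rw [hg, mem_lieB_stab hBK hEB h1 h2]
    exact hL1 Z hZ
  rw [hL2, h3] at h4
  exact h4.1

end Pool.Agent.TH119.TO
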