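import Mathlib
import Pool.Agent.TH119.TO.Crit
import Pool.Agent.TH119.MX.Third

/-!
# The criterion of degree two for the torsor of symplectic similitudes
-/

set_option linter.unusedSectionVars false

namespace Pool.Agent.TH119.TO

open Finset Matrix Pool.Agent.W437.HK Pool.Agent.TH119.DR Pool.Agent.TH119.MX

variable {g : ℕ} {K : Subfield ℂ}

/-- The symmetric matrices on the Betti side. -/
def sB (T : Set (Matrix (Fin g ⊕ Fin g) (Fin g ⊕ Fin g) ℂ))
    (E : Matrix (Fin g ⊕ Fin g) (Fin g ⊕ Fin g) ℂ) :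
    Submodule ℂ (Matrix (Fin g ⊕ Fin g) (Fin g ⊕ Fin g) ℂ) where
  carrier := {S | Sᵀ = S ∧ Tan T E (E * (S * Sp g))}
  zero_mem' := ⟨Matrix.transpose_zero, by
    rw [Matrix.zero_mul, Matrix.mul_zero]
    exact Tan.zero⟩
  add_mem' := by
    rintro a b ⟨h1, h2⟩ ⟨h3, h4⟩
    refine ⟨by rw [Matrix.transpose_add, h1, h3], ?_⟩
    rw [Matrix.add_mul, Matrix.mul_add]
    exact h2.add h4
  smul_mem' := by
    rintro c a ⟨h1, h2⟩
    refine ⟨by rw [Matrix.transpose_smul, h1], ?_⟩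
    rw [Matrix.smul_mul, Matrix.mul_smul]
    exact h2.smul c

/-- The symmetric matrices on the de Rham side. -/
def sD (T : Set (Matrix (Fin g ⊕ Fin g) (Fin g ⊕ Fin g) ℂ))
    (E : Matrix (Fin g ⊕ Fin g) (Fin g ⊕ Fin g) ℂ) :
    Submodule ℂ (Matrix (Fin g ⊕ Fin g) (Fin g ⊕ Fin g) ℂ) where
  carrier := {S | Sᵀ = S ∧ Tan T E (S * Sp g * E)}
  zero_mem' := ⟨Matrix.transpose_zero, by
    rw [Matrix.zero_mul, Matrix.zero_mul]
    exact Tan.zero⟩
  add_mem' := by
    rintro a b ⟨h1, h2⟩ ⟨h3, h4⟩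
    refine ⟨by rw [Matrix.transpose_add, h1, h3], ?_⟩
    rw [Matrix.add_mul, Matrix.add_mul]
    exact h2.add h4
  smul_mem' := by
    rintro c a ⟨h1, h2⟩
    refine ⟨by rw [Matrix.transpose_smul, h1], ?_⟩
    rw [Matrix.smul_mul, Matrix.smul_mul]
    exact h2.smul c

theorem sp_sp (M : Matrix (Fin g ⊕ Fin g) (Fin g ⊕ Fin g) ℂ) : M * Sp g * Sp g = -M := by
  rw [Matrix.mul_assoc, Sp_sq, Matrix.mul_neg, Matrix.mul_one]

theorem sp_sp' (M : Matrix (Fin g ⊕ Fin g) (Fin g ⊕ Fin g) ℂ) : Sp g * (Sp g * M) = -M := by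
  rw [← Matrix.mul_assoc, Sp_sq, Matrix.neg_mul, Matrix.one_mul]

theorem sp_sym {M : Matrix (Fin g ⊕ Fin g) (Fin g ⊕ Fin g) ℂ} (hM : Mᵀ = M) :
    (Sp g * M * Sp g)ᵀ = Sp g * M * Sp g := by
  rw [Matrix.transpose_mul, Matrix.transpose_mul, Sp_transpose, hM, Matrix.mul_neg,
    Matrix.neg_mul, Matrix.mul_neg, neg_neg, Matrix.mul_assoc]

theorem sp_inj {M : Matrix (Fin g ⊕ Fin g) (Fin g ⊕ Fin g) ℂ} (h : Sp g * M * Sp g = 0) :
    M = 0 := by
  have h1 : Sp g * (Sp g * M * Sp g) * Sp g = M := by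
    rw [Matrix.mul_assoc (Sp g) M, sp_sp', Matrix.neg_mul, sp_sp, neg_neg]
  rw [← h1, h, Matrix.mul_zero, Matrix.zero_mul]

theorem sum_trace {b M : Matrix (Fin g ⊕ Fin g) (Fin g ⊕ Fin g) ℂ} (hb : bᵀ = b) :
    ∑ x, ∑ y, b x y * M x y = (b * M).trace := by
  rw [Matrix.trace]
  simp only [Matrix.diag_apply, Matrix.mul_apply]
  rw [Finset.sum_comm]
  refine Finset.sum_congr rfl fun x _ => Finset.sum_congr rfl fun y _ => ?_
  have h2 : b x y = b y x := congrFun (congrFun hb y) x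
  rw [← h2]

section

variable {E : Matrix (Fin g ⊕ Fin g) (Fin g ⊕ Fin g) ℂ} {lam : ℂ}

/-- The inverse of the period matrix. -/
noncomputable def iE (E : Matrix (Fin g ⊕ Fin g) (Fin g ⊕ Fin g) ℂ) (lam : ℂ) :
    Matrix (Fin g ⊕ Fin g) (Fin g ⊕ Fin g) ℂ := -(lam⁻¹ • (Sp g * Eᵀ * Sp g))

theorem E_iE (hE : E * Sp g * Eᵀ = lam • Sp g) (h0 : lam ≠ 0) : E * iE E lam = 1 := by
  unfold iE
  rw [Matrix.mul_neg, Matrix.mul_smul, ← Matrix.mul_assoc, ← Matrix.mul_assoc, hE,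
    Matrix.smul_mul, Sp_sq, smul_neg, smul_neg, neg_neg, smul_smul, inv_mul_cancel₀ h0, one_smul]

theorem iE_E (hE : E * Sp g * Eᵀ = lam • Sp g) (h0 : lam ≠ 0) : iE E lam * E = 1 :=
  mul_eq_one_comm.1 (E_iE hE h0)

theorem tE (hE : E * Sp g * Eᵀ = lam • Sp g) (h0 : lam ≠ 0) : Eᵀ * Sp g * E = lam • Sp g := by
  have h1 := iE_E hE h0
  unfold iE at h1
  have h2 : Sp g * (Eᵀ * Sp g * E) = -(lam • 1) := by
    calc Sp g * (Eᵀ * Sp g * E) = -(lam • (-(lam⁻¹ • (Sp g * Eᵀ * Sp g)) * E)) := by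
          rw [Matrix.neg_mul, smul_neg, neg_neg, Matrix.smul_mul, smul_smul, mul_inv_cancel₀ h0,
            one_smul]
          simp only [Matrix.mul_assoc]
      _ = _ := by rw [h1]
  calc Eᵀ * Sp g * E = -(Sp g * (Sp g * (Eᵀ * Sp g * E))) := by rw [sp_sp', neg_neg]
    _ = lam • Sp g := by
        rw [h2, Matrix.mul_neg, neg_neg, Matrix.mul_smul, Matrix.mul_one]

variable {T : Set (Matrix (Fin g ⊕ Fin g) (Fin g ⊕ Fin g) ℂ)}

/-- From the Betti side to the de Rham side. -/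
theorem twB (hE : E * Sp g * Eᵀ = lam • Sp g) (h0 : lam ≠ 0)
    (S : Matrix (Fin g ⊕ Fin g) (Fin g ⊕ Fin g) ℂ) :
    (lam⁻¹ • (E * S * Eᵀ)) * Sp g * E = E * (S * Sp g) := by
  rw [Matrix.smul_mul, Matrix.smul_mul, Matrix.mul_assoc (E * S), Matrix.mul_assoc (E * S),
    tE hE h0, Matrix.mul_smul, smul_smul, inv_mul_cancel₀ h0, one_smul, Matrix.mul_assoc]

/-- From the de Rham side to the Betti side. -/
theorem twD (hE : E * Sp g * Eᵀ = lam • Sp g) (h0 : lam ≠ 0)
    (C : Matrix (Fin g ⊕ Fin g) (Fin g ⊕ Fin g) ℂ) :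
    E * ((lam⁻¹ • (Sp g * (Eᵀ * (Sp g * C * Sp g) * E) * Sp g)) * Sp g) = C * Sp g * E := by
  have h1 : (lam⁻¹ • (Sp g * (Eᵀ * (Sp g * C * Sp g) * E) * Sp g)) * Sp g =
      iE E lam * (C * Sp g * E) := by
    rw [Matrix.smul_mul, sp_sp]
    unfold iE
    rw [smul_neg, Matrix.neg_mul, Matrix.smul_mul]
    simp only [Matrix.mul_assoc]
  rw [h1, ← Matrix.mul_assoc, E_iE hE h0, Matrix.one_mul]

theorem mem_sB_of_sD (hE : E * Sp g * Eᵀ = lam • Sp g) (h0 : lam ≠ 0)
    {C : Matrix (Fin g ⊕ Fin g) (Fin g ⊕ Fin g) ℂ} (hC : C ∈ sD T E) :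
    lam⁻¹ • (Sp g * (Eᵀ * (Sp g * C * Sp g) * E) * Sp g) ∈ sB T E := by
  refine ⟨?_, ?_⟩
  · rw [Matrix.transpose_smul, sp_sym]
    rw [Matrix.transpose_mul, Matrix.transpose_mul, sp_sym hC.1, Matrix.transpose_transpose]
    simp only [Matrix.mul_assoc]
  · rw [twD hE h0]
    exact hC.2

theorem mem_sD_of_sB (hE : E * Sp g * Eᵀ = lam • Sp g) (h0 : lam ≠ 0)
    {S : Matrix (Fin g ⊕ Fin g) (Fin g ⊕ Fin g) ℂ} (hS : S ∈ sB T E) :
    lam⁻¹ • (E * S * Eᵀ) ∈ sD T E := by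
  refine ⟨?_, ?_⟩
  · rw [Matrix.transpose_smul, Matrix.transpose_mul, Matrix.transpose_mul,
      Matrix.transpose_transpose, hS.1, Matrix.mul_assoc]
  · rw [twB hE h0]
    exact hS.2

theorem sB_map (hT : Tors K T) (hET : E ∈ T) (hE : E * Sp g * Eᵀ = lam • Sp g) (h0 : lam ≠ 0)
    (f : ℂ →ₗ[K] ℂ) {S : Matrix (Fin g ⊕ Fin g) (Fin g ⊕ Fin g) ℂ} (hS : S ∈ sB T E) :
    S.map f ∈ sB T E := by
  refine ⟨?_, ?_⟩
  · rw [← Matrix.transpose_map, hS.1]
  · have h1 := hT.tan_map hET (E_iE hE h0) (iE_E hE h0) f hS.2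
    rwa [map_mul_right f (Sp_mem K g)] at h1

theorem sD_map (hT : Tors K T) (hET : E ∈ T) (hE : E * Sp g * Eᵀ = lam • Sp g) (h0 : lam ≠ 0)
    (f : ℂ →ₗ[K] ℂ) {S : Matrix (Fin g ⊕ Fin g) (Fin g ⊕ Fin g) ℂ} (hS : S ∈ sD T E) :
    S.map f ∈ sD T E := by
  refine ⟨?_, ?_⟩
  · rw [← Matrix.transpose_map, hS.1]
  · have h1 := hT.tan_map' hET (E_iE hE h0) (iE_E hE h0) f hS.2
    rwa [map_mul_right f (Sp_mem K g)] at h1

theorem sp_map_der (δ : Derivation ℚ ℂ ℂ) : (Sp g).map δ = 0 := by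
  ext i j
  rw [Matrix.map_apply]
  exact deriv_alg δ (QQ_alg _ (Sp_mem QQ g i j))

/-- The logarithmic derivative of the period matrix. -/
theorem exists_log_der (hE : E * Sp g * Eᵀ = lam • Sp g) (h0 : lam ≠ 0)
    (δ : Derivation ℚ ℂ ℂ) : ∃ S : Matrix (Fin g ⊕ Fin g) (Fin g ⊕ Fin g) ℂ, Sᵀ = S ∧
      E.map δ = E * (S * Sp g + (δ lam / (2 * lam)) • 1) := by
  obtain ⟨X, hX⟩ : ∃ X, X = iE E lam * E.map δ := ⟨_, rfl⟩
  have hEX : E * X = E.map δ := by rw [hX, ← Matrix.mul_assoc, E_iE hE h0, Matrix.one_mul]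
  have h1 : E.map δ * Sp g * Eᵀ + E * Sp g * (E.map δ)ᵀ = δ lam • Sp g := by
    have h2 := congrArg (fun M : Matrix (Fin g ⊕ Fin g) (Fin g ⊕ Fin g) ℂ => M.map δ) hE
    rw [map_mul_der, map_mul_der, sp_map_der, Matrix.mul_zero, add_zero,
      Matrix.transpose_map] at h2
    rw [h2]
    ext i j
    rw [Matrix.map_apply, Matrix.smul_apply, Matrix.smul_apply, smul_eq_mul, Derivation.leibniz,
      deriv_alg δ (QQ_alg _ (Sp_mem QQ g i j)), smul_zero, zero_add, smul_eq_mul, smul_eq_mul,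
      mul_comm]
  have h3 : X * Sp g + Sp g * Xᵀ = (δ lam / lam) • Sp g := by
    have h4 : E * (X * Sp g + Sp g * Xᵀ - (δ lam / lam) • Sp g) * Eᵀ = 0 := by
      rw [Matrix.mul_sub, Matrix.mul_add, Matrix.sub_mul, Matrix.add_mul, ← Matrix.mul_assoc E X,
        hEX, Matrix.mul_smul, Matrix.smul_mul, hE, smul_smul, div_mul_cancel₀ _ h0, ← h1,
        ← hEX, Matrix.transpose_mul, sub_eq_zero]
      simp only [Matrix.mul_assoc]
    have h5 : (iE E lam)ᵀ * Eᵀ = 1 := by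
      rw [← Matrix.transpose_mul, E_iE hE h0, Matrix.transpose_one]
    have h5' : Eᵀ * (iE E lam)ᵀ = 1 := mul_eq_one_comm.1 h5
    have h6 : X * Sp g + Sp g * Xᵀ - (δ lam / lam) • Sp g =
        iE E lam * (E * (X * Sp g + Sp g * Xᵀ - (δ lam / lam) • Sp g) * Eᵀ) * (iE E lam)ᵀ := by
      rw [Matrix.mul_assoc E, ← Matrix.mul_assoc (iE E lam), iE_E hE h0, Matrix.one_mul,
        Matrix.mul_assoc, h5', Matrix.mul_one]
    rw [h4, Matrix.mul_zero, Matrix.zero_mul] at h6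
    exact sub_eq_zero.1 h6
  refine ⟨-((X - (δ lam / (2 * lam)) • 1) * Sp g), ?_, ?_⟩
  · rw [Matrix.transpose_neg, Matrix.transpose_mul, Sp_transpose, Matrix.transpose_sub,
      Matrix.transpose_smul, Matrix.transpose_one, Matrix.neg_mul, neg_neg, Matrix.mul_sub,
      Matrix.sub_mul, Matrix.mul_smul, Matrix.smul_mul, Matrix.mul_one, Matrix.one_mul]
    have h4 : Sp g * Xᵀ = (δ lam / lam) • Sp g - X * Sp g := by rw [← h3]; abel
    have h5 : (δ lam / lam) = (δ lam / (2 * lam)) + (δ lam / (2 * lam)) := by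
      field_simp
      ring
    rw [h4, h5]
    module
  · rw [Matrix.neg_mul, sp_sp, neg_neg, sub_add_cancel, hEX]

end

/-- A number which is not in `K` is not fixed by all `K`-linear maps that kill `1`. -/
theorem exists_lin {c z : ℂ} (hc : c ≠ 0) (h : z / c ∉ K) : ∃ f : ℂ →ₗ[K] ℂ, f c = 0 ∧ f z ≠ 0 := by
  obtain ⟨σ, hσ, hz⟩ := exists_move h
  refine ⟨{ toFun := fun x => σ (x / c) - x / c
            map_add' := fun x y => by rw [add_div, map_add]; ring
            map_smul' := fun a x => by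
              change σ ((a : ℂ) * x / c) - (a : ℂ) * x / c = (a : ℂ) * (σ (x / c) - x / c)
              rw [mul_div_assoc, map_mul, hσ _ a.2]
              ring }, ?_, ?_⟩
  · change σ (c / c) - c / c = 0
    rw [div_self hc, map_one, sub_self]
  · exact sub_ne_zero.2 hz

variable {E : Matrix (Fin g ⊕ Fin g) (Fin g ⊕ Fin g) ℂ} {lam : ℂ}
  {T : Set (Matrix (Fin g ⊕ Fin g) (Fin g ⊕ Fin g) ℂ)}

/-- The whole symplectic Lie algebra is tangent. -/
theorem sB_top (hg : 0 < g) (hK : ∀ x ∈ K, IsAlgebraic ℚ x) (hE : E * Sp g * Eᵀ = lam • Sp g)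
    (h0 : lam ≠ 0) (hrat : ∃ x y z w, E z w ≠ 0 ∧ ¬ IsAlgebraic ℚ (E x y / E z w))
    (hNo : NoRel K 2 E) (hT : Tors K T) (hET : E ∈ T)
    {S : Matrix (Fin g ⊕ Fin g) (Fin g ⊕ Fin g) ℂ} (hS : Sᵀ = S) : S ∈ sB T E := by
  by_contra hSs
  obtain ⟨b, hb1, hb2, hb3, hb4⟩ := exists_form (s := sB T E) (K := K) (fun X hX => hX.1)
    (fun f X hX => sB_map hT hET hE h0 f hX) hS hSs
  -- the de Rham side is zero
  have hD : ∀ C ∈ sD T E, C = 0 := by
    intro C hC
    have h1 := mat_coords (sD T E) (fun f X hX => sD_map hT hET hE h0 f hX) hC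
    clear hC
    induction h1 using Submodule.span_induction with
    | mem C hC =>
      have h2 := hb4 _ (mem_sB_of_sD hE h0 hC.1)
      rw [sum_trace hb1, Matrix.mul_smul, Matrix.trace_smul, smul_eq_mul] at h2
      have h3 : (b * (Sp g * (Eᵀ * (Sp g * C * Sp g) * E) * Sp g)).trace = 0 := by
        rcases mul_eq_zero.1 h2 with h | h
        · exact absurd h (inv_ne_zero h0)
        · exact h
      rw [← Matrix.mul_assoc, Matrix.trace_mul_comm, ← Matrix.mul_assoc, ← Matrix.mul_assoc,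
        ← sum_trace (sp_sym hb1)] at h3
      have hbK : ∀ x y, (Sp g * b * Sp g) x y ∈ K := fun x y => by
        rw [Matrix.mul_apply]
        refine K.sum_mem fun i _ => K.mul_mem ?_ (Sp_mem K g _ _)
        rw [Matrix.mul_apply]
        exact K.sum_mem fun i _ => K.mul_mem (Sp_mem K g _ _) (hb2 _ _)
      have hcK : ∀ x y, (Sp g * C * Sp g) x y ∈ K := fun x y => by
        rw [Matrix.mul_apply]
        refine K.sum_mem fun i _ => K.mul_mem ?_ (Sp_mem K g _ _)
        rw [Matrix.mul_apply]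
        exact K.sum_mem fun i _ => K.mul_mem (Sp_mem K g _ _) (hC.2 _ _)
      rcases rel_kill hNo (sp_sym hb1) (sp_sym hC.1.1) hbK hcK h3 with h | h
      · exact absurd (sp_inj h) hb3
      · exact sp_inj h
    | zero => rfl
    | add X Y _ _ h2 h3 => rw [h2, h3, add_zero]
    | smul c X _ h2 => rw [h2, smul_zero]
  have hB : ∀ S ∈ sB T E, S = 0 := by
    intro S hS
    have h1 := hD _ (mem_sD_of_sB hE h0 hS)
    have h2 := twB hE h0 S
    rw [h1, Matrix.zero_mul, Matrix.zero_mul] at h2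
    calc S = -(iE E lam * (E * (S * Sp g)) * Sp g) := by
          rw [← Matrix.mul_assoc, iE_E hE h0, Matrix.one_mul, sp_sp, neg_neg]
      _ = 0 := by rw [← h2, Matrix.mul_zero, Matrix.zero_mul, neg_zero]
  -- the derivatives
  have hder : ∀ δ : Derivation ℚ ℂ ℂ, ∃ c : ℂ, E.map δ = c • E := by
    intro δ
    obtain ⟨S, hS1, hS2⟩ := exists_log_der hE h0 δ
    refine ⟨δ lam / (2 * lam), ?_⟩
    generalize δ lam / (2 * lam) = c at hS2
    have htan := hT.tan_der hK hET δ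
    suffices h : S = 0 by
      rw [hS2, h, Matrix.zero_mul, zero_add, Matrix.mul_smul, Matrix.mul_one]
    by_contra hS0
    have hc : c ≠ 0 := by
      rintro rfl
      apply hS0
      apply hB S
      refine ⟨hS1, ?_⟩
      rw [hS2, zero_smul, add_zero] at htan
      exact htan
    have hone : ∀ f : ℂ →ₗ[K] ℂ, (c • (1 : Matrix (Fin g ⊕ Fin g) (Fin g ⊕ Fin g) ℂ)).map f =
        f c • 1 := fun f => smul_one_map (map_zero f) c
    have hmapadd : ∀ (f : ℂ →ₗ[K] ℂ) (A A' : Matrix (Fin g ⊕ Fin g) (Fin g ⊕ Fin g) ℂ),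
        (A + A').map f = A.map f + A'.map f := fun f A A' => by
      ext i j
      simp
    -- the Betti side
    have hSK : ∀ i j, S i j / c ∈ K := by
      intro i j
      by_contra hcon
      obtain ⟨f, hf1, hf2⟩ := exists_lin hc hcon
      apply hf2
      have h1 : Tan T E (E * (S * Sp g + c • 1)) := by rwa [hS2] at htan
      have h2 := hT.tan_map hET (E_iE hE h0) (iE_E hE h0) f h1
      rw [hmapadd, hone, hf1, zero_smul, add_zero, map_mul_right f (Sp_mem K g)] at h2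
      have h3 := hB (S.map f) ⟨by rw [← Matrix.transpose_map, hS1], h2⟩
      have h4 := congrFun (congrFun h3 i) j
      exact h4
    -- the de Rham side
    obtain ⟨C, hC⟩ : ∃ C, C = lam⁻¹ • (E * S * Eᵀ) := ⟨_, rfl⟩
    have hC1 : Cᵀ = C := by
      rw [hC, Matrix.transpose_smul, Matrix.transpose_mul, Matrix.transpose_mul,
        Matrix.transpose_transpose, hS1, Matrix.mul_assoc]
    have hC2 : C * Sp g * E = E * (S * Sp g) := by rw [hC, twB hE h0]
    have hCK : ∀ i j, C i j / c ∈ K := by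
      intro i j
      by_contra hcon
      obtain ⟨f, hf1, hf2⟩ := exists_lin hc hcon
      apply hf2
      have h1 : Tan T E ((C * Sp g + c • 1) * E) := by
        rw [hS2, Matrix.mul_add, ← hC2, Matrix.mul_smul, Matrix.mul_one] at htan
        rwa [Matrix.add_mul, Matrix.smul_mul, Matrix.one_mul]
      have h2 := hT.tan_map' hET (E_iE hE h0) (iE_E hE h0) f h1
      rw [hmapadd, hone, hf1, zero_smul, add_zero, map_mul_right f (Sp_mem K g)] at h2
      have h3 := hD (C.map f) ⟨by rw [← Matrix.transpose_map, hC1], h2⟩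
      have h4 := congrFun (congrFun h3 i) j
      exact h4
    -- a relation
    obtain ⟨S0, hS0'⟩ : ∃ S0, S0 = c⁻¹ • S := ⟨_, rfl⟩
    obtain ⟨C0, hC0'⟩ : ∃ C0, C0 = c⁻¹ • C := ⟨_, rfl⟩
    have hS0K : ∀ i j, S0 i j ∈ K := fun i j => by
      rw [hS0', Matrix.smul_apply, smul_eq_mul, mul_comm, ← div_eq_mul_inv]
      exact hSK i j
    have hC0K : ∀ i j, C0 i j ∈ K := fun i j => by
      rw [hC0', Matrix.smul_apply, smul_eq_mul, mul_comm, ← div_eq_mul_inv]
      exact hCK i j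
    have hC0s : C0ᵀ = C0 := by rw [hC0', Matrix.transpose_smul, hC1]
    have hS0s : S0ᵀ = S0 := by rw [hS0', Matrix.transpose_smul, hS1]
    have hrel : C0 * Sp g * E = E * (S0 * Sp g) := by
      rw [hC0', hS0', Matrix.smul_mul, Matrix.smul_mul, hC2, Matrix.smul_mul, Matrix.mul_smul]
    have hrel2 : Eᵀ * (Sp g * C0 * Sp g) * E = lam • (Sp g * S0 * Sp g) := by
      calc Eᵀ * (Sp g * C0 * Sp g) * E = Eᵀ * Sp g * (C0 * Sp g * E) := by
            simp only [Matrix.mul_assoc]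
        _ = (Eᵀ * Sp g * E) * (S0 * Sp g) := by rw [hrel]; simp only [Matrix.mul_assoc]
        _ = _ := by rw [tE hE h0, Matrix.smul_mul, Matrix.mul_assoc]
    obtain ⟨τ, hτ⟩ : ∃ τ, τ = Sp g * S0 * Sp g := ⟨_, rfl⟩
    have hτK : ∀ x y, τ x y ∈ K := fun x y => by
      rw [hτ, Matrix.mul_apply]
      refine K.sum_mem fun i _ => K.mul_mem ?_ (Sp_mem K g _ _)
      rw [Matrix.mul_apply]
      exact K.sum_mem fun i _ => K.mul_mem (Sp_mem K g _ _) (hS0K _ _)
    have hcK : ∀ x y, (Sp g * C0 * Sp g) x y ∈ K := fun x y => by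
      rw [Matrix.mul_apply]
      refine K.sum_mem fun i _ => K.mul_mem ?_ (Sp_mem K g _ _)
      rw [Matrix.mul_apply]
      exact K.sum_mem fun i _ => K.mul_mem (Sp_mem K g _ _) (hC0K _ _)
    have hkill : ∀ b' : Matrix (Fin g ⊕ Fin g) (Fin g ⊕ Fin g) ℂ, b'ᵀ = b' →
        (∀ x y, b' x y ∈ K) → (b' * τ).trace = 0 → b' = 0 := by
      intro b' h1 h2 h3
      rcases rel_kill hNo h1 (sp_sym hC0s) h2 hcK (by
        rw [sum_trace h1, hrel2, ← hτ, Matrix.mul_smul, Matrix.trace_smul, h3, smul_zero])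
        with h | h
      · exact h
      · exfalso
        apply hS0
        have h4 := sp_inj h
        have h5 : C = 0 := by
          have : c • C0 = C := by rw [hC0', smul_smul, mul_inv_cancel₀ hc, one_smul]
          rw [← this, h4, smul_zero]
        rw [h5, Matrix.zero_mul, Matrix.zero_mul] at hC2
        calc S = -(iE E lam * (E * (S * Sp g)) * Sp g) := by
              rw [← Matrix.mul_assoc, iE_E hE h0, Matrix.one_mul, sp_sp, neg_neg]
          _ = 0 := by rw [← hC2, Matrix.mul_zero, Matrix.zero_mul, neg_zero]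
    let i0 : Fin g ⊕ Fin g := Sum.inl ⟨0, hg⟩
    let j0 : Fin g ⊕ Fin g := Sum.inr ⟨0, hg⟩
    have htr : ∀ i : Fin g ⊕ Fin g, (Matrix.single i i (1 : ℂ) * τ).trace = τ i i := by
      intro i
      rw [Matrix.trace]
      simp only [Matrix.diag_apply]
      rw [Finset.sum_eq_single i]
      · simp
      · intro j _ hj
        rw [Matrix.single_mul_apply_of_ne (h := hj)]
      · intro h
        exact absurd (Finset.mem_univ _) h
    by_cases hz : τ i0 i0 = 0
    · have h1 := hkill (Matrix.single i0 i0 1) (by rw [Matrix.transpose_single]) (fun x y => by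
        rw [Matrix.single_apply]
        split_ifs
        · exact K.one_mem
        · exact K.zero_mem) (by rw [htr, hz])
      have h2 := congrFun (congrFun h1 i0) i0
      rw [Matrix.single_apply_same] at h2
      exact one_ne_zero h2
    · have h1 := hkill (τ j0 j0 • Matrix.single i0 i0 1 - τ i0 i0 • Matrix.single j0 j0 1) (by
        rw [Matrix.transpose_sub, Matrix.transpose_smul, Matrix.transpose_smul,
          Matrix.transpose_single, Matrix.transpose_single]) (fun x y => by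
        rw [Matrix.sub_apply, Matrix.smul_apply, Matrix.smul_apply, Matrix.single_apply,
          Matrix.single_apply]
        refine K.sub_mem (K.mul_mem (hτK _ _) ?_) (K.mul_mem (hτK _ _) ?_)
        · split_ifs
          · exact K.one_mem
          · exact K.zero_mem
        · split_ifs
          · exact K.one_mem
          · exact K.zero_mem) (by
        rw [Matrix.sub_mul, Matrix.smul_mul, Matrix.smul_mul, Matrix.trace_sub,
          Matrix.trace_smul, Matrix.trace_smul, htr, htr, smul_eq_mul, smul_eq_mul]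
        ring)
      have h2 := congrFun (congrFun h1 j0) j0
      rw [Matrix.sub_apply, Matrix.smul_apply, Matrix.smul_apply, Matrix.single_apply_same,
        Matrix.single_apply, if_neg (by
          rintro ⟨h, _⟩
          exact absurd h (by simp [i0, j0]))] at h2
      simp at h2
      exact hz h2
  obtain ⟨x, y, z, w, hne, htr⟩ := hrat
  obtain ⟨δ, hδ⟩ := exists_deriv htr
  apply hδ
  obtain ⟨c, hc⟩ := hder δ
  have h3 : ∀ a b, δ (E a b) = c * E a b := fun a b => by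
    have := congrFun (congrFun hc a) b
    rwa [Matrix.map_apply, Matrix.smul_apply, smul_eq_mul] at this
  rw [div_eq_mul_inv, Derivation.leibniz, Derivation.leibniz_inv, h3 x y, h3 z w]
  simp only [smul_eq_mul]
  field_simp
  ring

/-- **The criterion.** -/
theorem crit (hg : 0 < g) (hK : ∀ x ∈ K, IsAlgebraic ℚ x) (hE : E * Sp g * Eᵀ = lam • Sp g)
    (hlam : ¬ IsAlgebraic ℚ lam)
    (hrat : ∃ x y z w, E z w ≠ 0 ∧ ¬ IsAlgebraic ℚ (E x y / E z w))
    (hNo : NoRel K 2 E) (hT : Tors K T) (hET : E ∈ T)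
    {X : Matrix (Fin g ⊕ Fin g) (Fin g ⊕ Fin g) ℂ} (hX : Sim X) : X ∈ T := by
  have h0 : lam ≠ 0 := by
    rintro rfl
    exact hlam isAlgebraic_zero
  have htop : ∀ S : Matrix (Fin g ⊕ Fin g) (Fin g ⊕ Fin g) ℂ, Sᵀ = S → Tan T E (E * (S * Sp g)) :=
    fun S hS => (sB_top hg hK hE h0 hrat hNo hT hET hS).2
  have hst : ∀ S : Matrix (Fin g ⊕ Fin g) (Fin g ⊕ Fin g) ℂ, Sᵀ = S → ∀ d, Stab T d (S * Sp g) :=
    fun S hS => (hT.stab_iff hET (E_iE hE h0) (iE_E hE h0)).2 (htop S hS)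
  have hone : ∀ d, Stab T d (1 : Matrix (Fin g ⊕ Fin g) (Fin g ⊕ Fin g) ℂ) := by
    obtain ⟨δ, hδ⟩ := exists_deriv hlam
    obtain ⟨S, hS1, hS2⟩ := exists_log_der hE h0 δ
    have h1 := hT.tan_der hK hET δ
    rw [hS2, Matrix.mul_add] at h1
    have h2 := h1.sub (htop S hS1)
    rw [add_sub_cancel_left, Matrix.mul_smul] at h2
    have h3 : δ lam / (2 * lam) ≠ 0 := div_ne_zero hδ (mul_ne_zero two_ne_zero h0)
    have h4 := h2.smul (δ lam / (2 * lam))⁻¹
    rw [smul_smul, inv_mul_cancel₀ h3, one_smul] at h4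
    exact (hT.stab_iff hET (E_iE hE h0) (iE_E hE h0)).2 h4
  -- the symplectic group
  have hsp : ∀ h : Matrix (Fin g ⊕ Fin g) (Fin g ⊕ Fin g) ℂ,
      hᵀ * Matrix.J (Fin g) ℂ * h = Matrix.J (Fin g) ℂ → Pres T h := by
    intro h hh
    refine Pool.Agent.Helper509.SpGen.P_all (Pres T) (fun _ _ h1 h2 => h1.mul h2) ?_ ?_ h hh
    · intro A hA
      have h1 : (Matrix.fromBlocks 0 A 0 0 : Matrix (Fin g ⊕ Fin g) (Fin g ⊕ Fin g) ℂ) =
          Matrix.fromBlocks A 0 0 0 * Sp g := by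
        rw [Sp, Matrix.fromBlocks_multiply]
        simp
      have h2 := pres_of_stab (H := T) (ε := 0) (X := Matrix.fromBlocks 0 A 0 0) (by
        rw [Matrix.fromBlocks_multiply, zero_smul]
        simp) (by
        rw [h1]
        exact hst _ (by rw [Matrix.fromBlocks_transpose, hA]; simp)) 1
      rw [one_smul, ← Matrix.fromBlocks_one, Matrix.fromBlocks_add] at h2
      simpa using h2
    · intro A hA
      have h1 : (Matrix.fromBlocks 0 0 A 0 : Matrix (Fin g ⊕ Fin g) (Fin g ⊕ Fin g) ℂ) =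
          Matrix.fromBlocks 0 0 0 (-A) * Sp g := by
        rw [Sp, Matrix.fromBlocks_multiply]
        simp
      have h2 := pres_of_stab (H := T) (ε := 0) (X := Matrix.fromBlocks 0 0 A 0) (by
        rw [Matrix.fromBlocks_multiply, zero_smul]
        simp) (by
        rw [h1]
        exact hst _ (by rw [Matrix.fromBlocks_transpose, Matrix.transpose_neg, hA]; simp)) 1
      rw [one_smul, ← Matrix.fromBlocks_one, Matrix.fromBlocks_add] at h2
      simpa using h2
  obtain ⟨c, hc, hXc⟩ := hX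
  obtain ⟨h, hh⟩ : ∃ h, h = iE E lam * X := ⟨_, rfl⟩
  have hEh : E * h = X := by rw [hh, ← Matrix.mul_assoc, E_iE hE h0, Matrix.one_mul]
  have hsim : h * Sp g * hᵀ = (c / lam) • Sp g := by
    have h1 : iE E lam * Sp g * (iE E lam)ᵀ = lam⁻¹ • Sp g := by
      have h2 : iE E lam * (E * Sp g * Eᵀ) * (iE E lam)ᵀ = Sp g := by
        have h5 : Eᵀ * (iE E lam)ᵀ = 1 := by
          rw [← Matrix.transpose_mul, iE_E hE h0, Matrix.transpose_one]
        rw [Matrix.mul_assoc E, ← Matrix.mul_assoc (iE E lam), iE_E hE h0, Matrix.one_mul,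
          Matrix.mul_assoc, h5, Matrix.mul_one]
      rw [hE, Matrix.mul_smul, Matrix.smul_mul] at h2
      calc iE E lam * Sp g * (iE E lam)ᵀ =
          lam⁻¹ • (lam • (iE E lam * Sp g * (iE E lam)ᵀ)) := by
            rw [smul_smul, inv_mul_cancel₀ h0, one_smul]
        _ = _ := by rw [h2]
    calc h * Sp g * hᵀ = iE E lam * (X * Sp g * Xᵀ) * (iE E lam)ᵀ := by
          rw [hh, Matrix.transpose_mul]
          simp only [Matrix.mul_assoc]
      _ = _ := by rw [hXc, Matrix.mul_smul, Matrix.smul_mul, h1, smul_smul, div_eq_mul_inv]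
  have hcl : c / lam ≠ 0 := div_ne_zero hc h0
  obtain ⟨r, hr⟩ := IsAlgClosed.exists_pow_nat_eq (c / lam) (n := 2) two_pos
  have hr0 : r ≠ 0 := by
    rintro rfl
    rw [zero_pow two_ne_zero] at hr
    exact hcl hr.symm
  obtain ⟨k, hk⟩ : ∃ k, k = r⁻¹ • h := ⟨_, rfl⟩
  have hksp : k * Sp g * kᵀ = Sp g := by
    rw [hk, Matrix.transpose_smul, Matrix.smul_mul, Matrix.smul_mul, Matrix.mul_smul, hsim,
      smul_smul, smul_smul, ← hr]
    have : r⁻¹ * r⁻¹ * r ^ 2 = 1 := by field_simp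
    rw [this, one_smul]
  have hk1 : k * (-(Sp g * kᵀ * Sp g)) = 1 := by
    rw [Matrix.mul_neg, ← Matrix.mul_assoc, ← Matrix.mul_assoc, hksp, Sp_sq, neg_neg]
  have hk2 : (-(Sp g * kᵀ * Sp g)) * k = 1 := mul_eq_one_comm.1 hk1
  have hk3 : kᵀ * Sp g * k = Sp g := by
    calc kᵀ * Sp g * k = -(Sp g * (Sp g * (kᵀ * Sp g * k))) := by rw [sp_sp', neg_neg]
      _ = Sp g * ((-(Sp g * kᵀ * Sp g)) * k) := by
          rw [Matrix.neg_mul, Matrix.mul_neg]
          simp only [Matrix.mul_assoc]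
      _ = Sp g := by rw [hk2, Matrix.mul_one]
  have hJ : Matrix.J (Fin g) ℂ = -Sp g := by
    rw [Matrix.J, Sp, Matrix.fromBlocks_neg]
    simp
  have hPk : Pres T k := by
    refine hsp k ?_
    rw [hJ, Matrix.mul_neg, Matrix.neg_mul, hk3]
  have hPr : Pres T (r • (1 : Matrix (Fin g ⊕ Fin g) (Fin g ⊕ Fin g) ℂ)) := by
    have h1 := pres_of_stab (H := T) (ε := 1) (X := 1) (by rw [Matrix.mul_one, one_smul]) hone
      (r - 1)
    have h2 : (1 : Matrix (Fin g ⊕ Fin g) (Fin g ⊕ Fin g) ℂ) + (r - 1) • 1 = r • 1 := by module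
    rwa [h2] at h1
  have hPh : Pres T h := by
    have h1 := hPk.mul hPr
    have h2 : k * (r • 1) = h := by
      rw [Matrix.mul_smul, Matrix.mul_one, hk, smul_smul, mul_inv_cancel₀ hr0, one_smul]
    rwa [h2] at h1
  have hinv : h * (r⁻¹ • (-(Sp g * kᵀ * Sp g))) = 1 := by
    have h2 : h = r • k := by rw [hk, smul_smul, mul_inv_cancel₀ hr0, one_smul]
    rw [h2, Matrix.mul_smul, Matrix.smul_mul, hk1, smul_smul, inv_mul_cancel₀ hr0, one_smul]
  rw [← hEh]
  exact hT.mem_of_pres hET hPh hinv (mul_eq_one_comm.1 hinv)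

end Pool.Agent.TH119.TO
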