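import Mathlib
import Pool.Agent.TH119.TO.Main
import Pool.Agent.TH119.MX.Gal

/-!
# The variety of symplectic similitudes is irreducible; descent of relations
-/

set_option linter.unusedSectionVars false

namespace Pool.Agent.TH119.TO

open Finset Matrix Pool.Agent.W437.HK Pool.Agent.TH119.DR Pool.Agent.TH119.MX

variable {g : ℕ}

/-- A polynomial path of similitudes from `1` to `h`. -/
def Path (h : Matrix (Fin g ⊕ Fin g) (Fin g ⊕ Fin g) ℂ) : Prop :=
  ∃ (M : Matrix (Fin g ⊕ Fin g) (Fin g ⊕ Fin g) (Polynomial ℂ)) (c : Polynomial ℂ), c ≠ 0 ∧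
    (∀ s : ℂ, M.map (Polynomial.evalRingHom s) * Sp g * (M.map (Polynomial.evalRingHom s))ᵀ =
      c.eval s • Sp g) ∧
    M.map (Polynomial.evalRingHom 0) = 1 ∧ M.map (Polynomial.evalRingHom 1) = h

theorem Path.mul {h h' : Matrix (Fin g ⊕ Fin g) (Fin g ⊕ Fin g) ℂ} (H : Path h) (H' : Path h') :
    Path (h * h') := by
  obtain ⟨M, c, hc, h1, h2, h3⟩ := H
  obtain ⟨M', c', hc', h1', h2', h3'⟩ := H'
  refine ⟨M * M', c * c', mul_ne_zero hc hc', fun s => ?_, ?_, ?_⟩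
  · rw [Matrix.map_mul, Matrix.transpose_mul]
    calc M.map (Polynomial.evalRingHom s) * M'.map (Polynomial.evalRingHom s) * Sp g *
          ((M'.map (Polynomial.evalRingHom s))ᵀ * (M.map (Polynomial.evalRingHom s))ᵀ) =
        M.map (Polynomial.evalRingHom s) * (M'.map (Polynomial.evalRingHom s) * Sp g *
          (M'.map (Polynomial.evalRingHom s))ᵀ) * (M.map (Polynomial.evalRingHom s))ᵀ := by
          simp only [Matrix.mul_assoc]
      _ = _ := by
          rw [h1', Matrix.mul_smul, Matrix.smul_mul, h1, smul_smul, Polynomial.eval_mul, mul_comm]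
  · rw [Matrix.map_mul, h2, h2', Matrix.one_mul]
  · rw [Matrix.map_mul, h3, h3']

theorem path_linear {N : Matrix (Fin g ⊕ Fin g) (Fin g ⊕ Fin g) ℂ} {c : Polynomial ℂ} (hc : c ≠ 0)
    (h : ∀ s : ℂ, (1 + s • N) * Sp g * (1 + s • N)ᵀ = c.eval s • Sp g) : Path (1 + N) := by
  have h0 : ∀ s : ℂ, (1 + (Polynomial.X : Polynomial ℂ) • N.map Polynomial.C).map
      (Polynomial.evalRingHom s) = 1 + s • N := by
    intro s
    ext i j
    rw [Matrix.map_apply, Matrix.add_apply, Matrix.add_apply, Matrix.smul_apply,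
      Matrix.smul_apply, Matrix.map_apply]
    by_cases hij : i = j
    · subst hij
      simp
      ring
    · simp [Matrix.one_apply_ne hij]
      ring
  refine ⟨1 + (Polynomial.X : Polynomial ℂ) • N.map Polynomial.C, c, hc, fun s => ?_, ?_, ?_⟩
  · rw [h0, h]
  · rw [h0, zero_smul, add_zero]
  · rw [h0, one_smul]

/-- Every similitude is connected with `1`. -/
theorem sim_path {h : Matrix (Fin g ⊕ Fin g) (Fin g ⊕ Fin g) ℂ} (hh : Sim h) : Path h := by
  have hsp : ∀ h : Matrix (Fin g ⊕ Fin g) (Fin g ⊕ Fin g) ℂ,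
      hᵀ * Matrix.J (Fin g) ℂ * h = Matrix.J (Fin g) ℂ → Path h := by
    intro h hh
    refine Pool.Agent.Helper509.SpGen.P_all Path (fun _ _ h1 h2 => h1.mul h2) ?_ ?_ h hh
    · intro A hA
      have h1 : (Matrix.fromBlocks 1 A 0 1 : Matrix (Fin g ⊕ Fin g) (Fin g ⊕ Fin g) ℂ) =
          1 + Matrix.fromBlocks 0 A 0 0 := by
        rw [← Matrix.fromBlocks_one, Matrix.fromBlocks_add]
        simp
      rw [h1]
      refine path_linear (c := 1) one_ne_zero fun s => ?_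
      rw [← Matrix.fromBlocks_one, Matrix.fromBlocks_smul, Matrix.fromBlocks_add,
        Matrix.fromBlocks_transpose, Sp, Matrix.fromBlocks_multiply, Matrix.fromBlocks_multiply]
      simp [hA]
    · intro A hA
      have h1 : (Matrix.fromBlocks 1 0 A 1 : Matrix (Fin g ⊕ Fin g) (Fin g ⊕ Fin g) ℂ) =
          1 + Matrix.fromBlocks 0 0 A 0 := by
        rw [← Matrix.fromBlocks_one, Matrix.fromBlocks_add]
        simp
      rw [h1]
      refine path_linear (c := 1) one_ne_zero fun s => ?_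
      rw [← Matrix.fromBlocks_one, Matrix.fromBlocks_smul, Matrix.fromBlocks_add,
        Matrix.fromBlocks_transpose, Sp, Matrix.fromBlocks_multiply, Matrix.fromBlocks_multiply]
      simp [hA]
  obtain ⟨c, hc, hsim⟩ := hh
  obtain ⟨r, hr⟩ := IsAlgClosed.exists_pow_nat_eq c (n := 2) two_pos
  have hr0 : r ≠ 0 := by
    rintro rfl
    rw [zero_pow two_ne_zero] at hr
    exact hc hr.symm
  obtain ⟨k, hk⟩ : ∃ k, k = r⁻¹ • h := ⟨_, rfl⟩
  have hksp : k * Sp g * kᵀ = Sp g := by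
    rw [hk, Matrix.transpose_smul, Matrix.smul_mul, Matrix.smul_mul, Matrix.mul_smul, hsim,
      smul_smul, smul_smul, ← hr]
    have : r⁻¹ * r⁻¹ * r ^ 2 = 1 := by field_simp
    rw [this, one_smul]
  have hk1 : k * (-(Sp g * kᵀ * Sp g)) = 1 := by
    rw [Matrix.mul_neg, ← Matrix.mul_assoc, ← Matrix.mul_assoc, hksp, Sp_sq, neg_neg]
  have hk2 : (-(Sp g * kᵀ * Sp g)) * k = 1 := mul_eq_one_comm.1 hk1
  have hk3 : kᵀ * Sp g * k = Sp g := by
    calc kᵀ * Sp g * k = -(Sp g * (Sp g * (kᵀ * Sp g * k))) := by rw [sp_sp', neg_neg]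
      _ = Sp g * ((-(Sp g * kᵀ * Sp g)) * k) := by
          rw [Matrix.neg_mul, Matrix.mul_neg]
          simp only [Matrix.mul_assoc]
      _ = Sp g := by rw [hk2, Matrix.mul_one]
  have hJ : Matrix.J (Fin g) ℂ = -Sp g := by
    rw [Matrix.J, Sp, Matrix.fromBlocks_neg]
    simp
  have hPk : Path k := by
    refine hsp k ?_
    rw [hJ, Matrix.mul_neg, Matrix.neg_mul, hk3]
  have hPr : Path (1 + (r - 1) • (1 : Matrix (Fin g ⊕ Fin g) (Fin g ⊕ Fin g) ℂ)) := by
    refine path_linear (c := (1 + Polynomial.X * Polynomial.C (r - 1)) ^ 2) ?_ fun s => ?_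
    · refine pow_ne_zero _ fun h0 => ?_
      have h1 := congrArg (fun p => Polynomial.eval 0 p) h0
      simp at h1
    · have h1 : (1 : Matrix (Fin g ⊕ Fin g) (Fin g ⊕ Fin g) ℂ) + s • (r - 1) • 1 =
          (1 + s * (r - 1)) • 1 := by
        rw [add_smul, one_smul, smul_smul]
      rw [h1, Matrix.transpose_smul, Matrix.transpose_one, Matrix.smul_mul, Matrix.one_mul,
        Matrix.mul_smul, Matrix.mul_one, smul_smul]
      congr 1
      simp only [Polynomial.eval_pow, Polynomial.eval_add, Polynomial.eval_one,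
        Polynomial.eval_mul, Polynomial.eval_X, Polynomial.eval_C]
      ring
  have h1 := hPk.mul hPr
  have h2 : k * (1 + (r - 1) • (1 : Matrix (Fin g ⊕ Fin g) (Fin g ⊕ Fin g) ℂ)) = h := by
    have h3 : (1 : Matrix (Fin g ⊕ Fin g) (Fin g ⊕ Fin g) ℂ) + (r - 1) • 1 = r • 1 := by
      rw [sub_smul, one_smul]
      abel
    rw [h3, Matrix.mul_smul, Matrix.mul_one, hk, smul_smul, mul_inv_cancel₀ hr0, one_smul]
  rwa [h2] at h1

theorem Sim.mul {X Y : Matrix (Fin g ⊕ Fin g) (Fin g ⊕ Fin g) ℂ} (hX : Sim X) (hY : Sim Y) :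
    Sim (X * Y) := by
  obtain ⟨c, hc, h1⟩ := hX
  obtain ⟨c', hc', h2⟩ := hY
  refine ⟨c' * c, mul_ne_zero hc' hc, ?_⟩
  rw [Matrix.transpose_mul]
  calc X * Y * Sp g * (Yᵀ * Xᵀ) = X * (Y * Sp g * Yᵀ) * Xᵀ := by simp only [Matrix.mul_assoc]
    _ = _ := by rw [h2, Matrix.mul_smul, Matrix.smul_mul, h1, smul_smul]

theorem Sim.iE {X : Matrix (Fin g ⊕ Fin g) (Fin g ⊕ Fin g) ℂ} {c : ℂ} (hc : c ≠ 0)
    (hX : X * Sp g * Xᵀ = c • Sp g) : Sim (TO.iE X c) := by
  refine ⟨c⁻¹, inv_ne_zero hc, ?_⟩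
  have h2 : TO.iE X c * (X * Sp g * Xᵀ) * (TO.iE X c)ᵀ = Sp g := by
    have h5 : Xᵀ * (TO.iE X c)ᵀ = 1 := by
      rw [← Matrix.transpose_mul, iE_E hX hc, Matrix.transpose_one]
    rw [Matrix.mul_assoc X, ← Matrix.mul_assoc (TO.iE X c), iE_E hX hc, Matrix.one_mul,
      Matrix.mul_assoc, h5, Matrix.mul_one]
  rw [hX, Matrix.mul_smul, Matrix.smul_mul] at h2
  calc TO.iE X c * Sp g * (TO.iE X c)ᵀ =
      c⁻¹ • (c • (TO.iE X c * Sp g * (TO.iE X c)ᵀ)) := by
        rw [smul_smul, inv_mul_cancel₀ hc, one_smul]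
    _ = _ := by rw [h2]

/-- The values of a polynomial along a polynomial path. -/
theorem exists_poly (X : Matrix (Fin g ⊕ Fin g) (Fin g ⊕ Fin g) ℂ)
    (M : Matrix (Fin g ⊕ Fin g) (Fin g ⊕ Fin g) (Polynomial ℂ))
    (q : MvPolynomial ((Fin g ⊕ Fin g) × (Fin g ⊕ Fin g)) ℂ) :
    ∃ Q : Polynomial ℂ, ∀ s : ℂ, Q.eval s =
      MvPolynomial.eval (fun b => (X * M.map (Polynomial.evalRingHom s)) b.1 b.2) q := by
  refine ⟨MvPolynomial.aeval (fun b => (X.map Polynomial.C * M) b.1 b.2) q, fun s => ?_⟩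
  have h1 : (Polynomial.aeval s : Polynomial ℂ →ₐ[ℂ] ℂ)
      (MvPolynomial.aeval (fun b => (X.map Polynomial.C * M) b.1 b.2) q) =
      MvPolynomial.aeval (fun b => (Polynomial.aeval s : Polynomial ℂ →ₐ[ℂ] ℂ)
        ((X.map Polynomial.C * M) b.1 b.2)) q := by
    rw [← AlgHom.comp_apply, MvPolynomial.comp_aeval]
  rw [Polynomial.coe_aeval_eq_eval] at h1
  rw [h1, MvPolynomial.aeval_eq_eval]
  congr 2
  funext b
  rw [Matrix.mul_apply, Polynomial.eval_finsetSum, Matrix.mul_apply]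
  refine Finset.sum_congr rfl fun k _ => ?_
  rw [Polynomial.eval_mul, Matrix.map_apply, Polynomial.eval_C, Matrix.map_apply]
  rfl

/-- The variety of similitudes is irreducible. -/
theorem sim_irr {ι : Type*} [DecidableEq ι] (s : Finset ι)
    (q : ι → MvPolynomial ((Fin g ⊕ Fin g) × (Fin g ⊕ Fin g)) ℂ)
    (h : ∀ i ∈ s, ∃ X, Sim X ∧ MvPolynomial.eval (fun b => X b.1 b.2) (q i) ≠ 0) :
    ∃ X, Sim X ∧ MvPolynomial.eval (fun b => X b.1 b.2) (∏ i ∈ s, q i) ≠ 0 := by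
  induction s using Finset.induction_on with
  | empty => exact ⟨1, sim_one, by simp⟩
  | insert a s ha ih =>
    obtain ⟨X, hX, hX1⟩ := ih fun i hi => h i (Finset.mem_insert_of_mem hi)
    obtain ⟨Y, hY, hY1⟩ := h a (Finset.mem_insert_self a s)
    obtain ⟨c, hc, hXc⟩ := hX
    have hh : Sim (iE X c * Y) := (Sim.iE hc hXc).mul hY
    obtain ⟨M, e, he, h1, h2, h3⟩ := sim_path hh
    obtain ⟨Q, hQ⟩ := exists_poly X M (∏ i ∈ s, q i)
    obtain ⟨R, hR⟩ := exists_poly X M (q a)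
    have hQ0 : Q ≠ 0 := by
      rintro rfl
      apply hX1
      have h4 := hQ 0
      rw [h2, Matrix.mul_one, Polynomial.eval_zero] at h4
      exact h4.symm
    have hR0 : R ≠ 0 := by
      rintro rfl
      apply hY1
      have h4 := hR 1
      rw [h3, ← Matrix.mul_assoc, E_iE hXc hc, Matrix.one_mul, Polynomial.eval_zero] at h4
      exact h4.symm
    obtain ⟨z, hz⟩ : ∃ z : ℂ, (e * Q * R).eval z ≠ 0 := by
      by_contra hcon
      push Not at hcon
      exact mul_ne_zero (mul_ne_zero he hQ0) hR0 (Polynomial.funext fun z => by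
        rw [hcon, Polynomial.eval_zero])
    rw [Polynomial.eval_mul, Polynomial.eval_mul] at hz
    have hz1 := left_ne_zero_of_mul (left_ne_zero_of_mul hz)
    have hz2 := right_ne_zero_of_mul (left_ne_zero_of_mul hz)
    have hz3 := right_ne_zero_of_mul hz
    refine ⟨X * M.map (Polynomial.evalRingHom z), Sim.mul ⟨c, hc, hXc⟩ ⟨_, hz1, h1 z⟩, ?_⟩
    rw [Finset.prod_insert ha, map_mul]
    refine mul_ne_zero ?_ ?_
    · rw [← hR]
      exact hz3
    · rw [← hQ]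
      exact hz2

theorem Sim.map {X : Matrix (Fin g ⊕ Fin g) (Fin g ⊕ Fin g) ℂ} (hX : Sim X) (τ : ℂ ≃+* ℂ) :
    Sim (X.map τ) := by
  obtain ⟨c, hc, h1⟩ := hX
  refine ⟨τ c, by simpa using hc, ?_⟩
  have h2 : (Sp g).map τ = Sp g := by
    rw [Sp, Matrix.fromBlocks_map]
    congr 1
    · ext; simp
    · rw [Matrix.map_one _ (map_zero τ) (map_one τ)]
    · ext i j
      by_cases hij : i = j
      · subst hij; simp
      · simp [Matrix.one_apply_ne hij]
    · ext; simp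
  have h3 := congrArg (fun M : Matrix (Fin g ⊕ Fin g) (Fin g ⊕ Fin g) ℂ => M.map τ) h1
  rw [Matrix.map_mul, Matrix.map_mul, h2, Matrix.transpose_map] at h3
  rw [h3]
  ext i j
  have h4 : τ (Sp g i j) = Sp g i j := congrFun (congrFun h2 i) j
  rw [Matrix.map_apply, Matrix.smul_apply, Matrix.smul_apply, smul_eq_mul, map_mul, h4,
    smul_eq_mul]

theorem eval_map_aut {σ : Type*} (τ : ℂ ≃+* ℂ) (p : MvPolynomial σ ℂ) (x : σ → ℂ) :
    MvPolynomial.eval (fun b => τ (x b)) (MvPolynomial.map (τ : ℂ →+* ℂ) p) =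
      τ (MvPolynomial.eval x p) := by
  rw [MvPolynomial.eval_map]
  have h := MvPolynomial.eval₂_comp_left (τ : ℂ →+* ℂ) (RingHom.id ℂ) x p
  rw [RingHom.comp_id] at h
  exact h.symm

/-- Relations over a finite extension. -/
theorem norel_of_norel {F : Subfield ℂ} (K : IntermediateField F ℂ) [FiniteDimensional F K]
    {n D : ℕ} (hD : Module.finrank F K ≤ D) {E : Matrix (Fin g ⊕ Fin g) (Fin g ⊕ Fin g) ℂ}
    (hE : NoRel F (n * D) E) : NoRel K.toSubfield n E := by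
  classical
  intro p hp hdeg hpE
  obtain ⟨p0, hp0⟩ : ∃ p0 : MvPolynomial ((Fin g ⊕ Fin g) × (Fin g ⊕ Fin g)) K,
      MvPolynomial.map (K.val : K →+* ℂ) p0 = p := by
    have h1 : p ∈ (MvPolynomial.map (σ := (Fin g ⊕ Fin g) × (Fin g ⊕ Fin g))
        (K.val : K →+* ℂ)).range := by
      rw [MvPolynomial.as_sum p]
      refine sum_mem fun m _ => ?_
      exact ⟨MvPolynomial.monomial m (⟨p.coeff m, hp m⟩ : K), by
        rw [MvPolynomial.map_monomial]
        rfl⟩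
    exact h1
  let P : (K →ₐ[F] ℂ) → MvPolynomial ((Fin g ⊕ Fin g) × (Fin g ⊕ Fin g)) ℂ := fun φ =>
    MvPolynomial.map (φ : K →+* ℂ) p0
  let O : Finset (K →ₐ[F] ℂ) := Finset.univ.filter fun φ =>
    ∃ τ : ℂ ≃+* ℂ, (∀ x ∈ F, τ x = x) ∧ ∀ x : K, φ x = τ x
  have hmem : ∀ φ, φ ∈ O ↔ ∃ τ : ℂ ≃+* ℂ, (∀ x ∈ F, τ x = x) ∧ ∀ x : K, φ x = τ x := fun φ => by
    simp only [O, Finset.mem_filter, Finset.mem_univ, true_and]
  let N := ∏ φ ∈ O, P φ
  -- the degree
  have hdegP : ∀ φ, (P φ).totalDegree ≤ n := by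
    intro φ
    have h1 : p.totalDegree = p0.totalDegree := by
      rw [← hp0]
      unfold MvPolynomial.totalDegree
      rw [MvPolynomial.support_map_of_injective _ (RingHom.injective _)]
    rw [h1] at hdeg
    refine le_trans ?_ hdeg
    unfold MvPolynomial.totalDegree
    exact Finset.sup_mono (MvPolynomial.support_map_subset _ _)
  have hN1 : N.totalDegree ≤ n * D := by
    refine (MvPolynomial.totalDegree_finsetProd _ _).trans ?_
    refine (Finset.sum_le_sum fun φ _ => hdegP φ).trans ?_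
    rw [Finset.sum_const, smul_eq_mul, mul_comm]
    refine Nat.mul_le_mul le_rfl ?_
    refine (Finset.card_le_univ _).trans ?_
    rw [AlgHom.card]
    exact hD
  -- the coefficients
  let comp : (τ : ℂ ≃+* ℂ) → (∀ x ∈ F, τ x = x) → (K →ₐ[F] ℂ) → (K →ₐ[F] ℂ) := fun τ hτ φ =>
    { (τ : ℂ →+* ℂ).comp (φ : K →+* ℂ) with
      commutes' := fun x => by
        change τ (φ (algebraMap F K x)) = algebraMap F ℂ x
        rw [φ.commutes]
        exact hτ _ x.2 }
  have hcompO : ∀ (τ : ℂ ≃+* ℂ) (hτ : ∀ x ∈ F, τ x = x) φ, φ ∈ O → comp τ hτ φ ∈ O := by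
    intro τ hτ φ hφ
    obtain ⟨σ, hσ1, hσ2⟩ := (hmem φ).1 hφ
    refine (hmem _).2 ⟨σ.trans τ, fun x hx => ?_, fun x => ?_⟩
    · rw [RingEquiv.trans_apply, hσ1 x hx, hτ x hx]
    · rw [RingEquiv.trans_apply, ← hσ2]
      rfl
  have hcompP : ∀ (τ : ℂ ≃+* ℂ) (hτ : ∀ x ∈ F, τ x = x) φ,
      P (comp τ hτ φ) = MvPolynomial.map (τ : ℂ →+* ℂ) (P φ) := by
    intro τ hτ φ
    change MvPolynomial.map _ p0 = MvPolynomial.map _ (MvPolynomial.map _ p0)
    rw [MvPolynomial.map_map]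
    rfl
  have hN2 : ∀ m, N.coeff m ∈ F := by
    intro m
    by_contra hcon
    obtain ⟨τ, hτ, hne⟩ := exists_move hcon
    have hτ' : ∀ x ∈ F, τ.symm x = x := fun x hx => by
      rw [RingEquiv.symm_apply_eq, hτ x hx]
    apply hne
    have h1 : MvPolynomial.map (τ : ℂ →+* ℂ) N = N := by
      change MvPolynomial.map (τ : ℂ →+* ℂ) (∏ φ ∈ O, P φ) = ∏ φ ∈ O, P φ
      rw [map_prod]
      refine Finset.prod_bij' (fun φ _ => comp τ hτ φ) (fun φ _ => comp τ.symm hτ' φ)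
        (fun φ hφ => hcompO τ hτ φ hφ) (fun φ hφ => hcompO τ.symm hτ' φ hφ) ?_ ?_ ?_
      · intro φ _
        ext x
        change τ.symm (τ (φ x)) = φ x
        rw [RingEquiv.symm_apply_apply]
      · intro φ _
        ext x
        change τ (τ.symm (φ x)) = φ x
        rw [RingEquiv.apply_symm_apply]
      · intro φ _
        exact (hcompP τ hτ φ).symm
    have h2 := congrArg (fun q => MvPolynomial.coeff m q) h1
    simp only [MvPolynomial.coeff_map] at h2
    exact h2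
  -- the value at the period matrix
  have hval : (K.val : K →ₐ[F] ℂ) ∈ O :=
    (hmem _).2 ⟨RingEquiv.refl ℂ, fun _ _ => rfl, fun _ => rfl⟩
  have hN3 : MvPolynomial.eval (fun b => E b.1 b.2) N = 0 := by
    change MvPolynomial.eval (fun b => E b.1 b.2) (∏ φ ∈ O, P φ) = 0
    rw [map_prod]
    refine Finset.prod_eq_zero hval ?_
    change MvPolynomial.eval (fun b => E b.1 b.2) (MvPolynomial.map (K.val : K →+* ℂ) p0) = 0
    rw [hp0, hpE]
  have hN4 := hE N hN2 hN1 hN3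
  obtain ⟨φ, hφ, hφ2⟩ : ∃ φ ∈ O, ∀ X, Sim X → MvPolynomial.eval (fun b => X b.1 b.2) (P φ) = 0 := by
    by_contra hcon
    push Not at hcon
    obtain ⟨X, hX, hX2⟩ := sim_irr O P hcon
    exact hX2 (hN4 X hX)
  obtain ⟨τ, hτ1, hτ2⟩ := (hmem φ).1 hφ
  intro X hX
  have h1 : P φ = MvPolynomial.map (τ : ℂ →+* ℂ) p := by
    have h5 : (φ : K →+* ℂ) = (τ : ℂ →+* ℂ).comp (K.val : K →+* ℂ) := by
      refine RingHom.ext fun x => ?_
      exact hτ2 x
    rw [← hp0, MvPolynomial.map_map, ← h5]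
  have h2 := hφ2 _ (hX.map τ)
  rw [h1] at h2
  have h3 := eval_map_aut τ p (fun b => X b.1 b.2)
  have h4 : τ (MvPolynomial.eval (fun b => X b.1 b.2) p) = 0 := by
    rw [← h3]
    exact h2
  rwa [map_eq_zero_iff τ τ.injective] at h4

end Pool.Agent.TH119.TO
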