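import Mathlib
import Pool.Agent.TH119.TO.Irr

/-!
# The symplectic similitudes form a torsor
-/

set_option linter.unusedSectionVars false

namespace Pool.Agent.TH119.TO

open Finset Matrix Pool.Agent.W437.HK Pool.Agent.TH119.DR Pool.Agent.TH119.MX

variable {g : ℕ}

/-- The polynomials `(X J Xᵀ)_{ij} J_{kl} - (X J Xᵀ)_{kl} J_{ij}`. -/
noncomputable def spol (i j k l : Fin g ⊕ Fin g) :
    MvPolynomial ((Fin g ⊕ Fin g) × (Fin g ⊕ Fin g)) ℂ :=
  ∑ x, ∑ y, (MvPolynomial.C (Sp g x y * Sp g k l) * MvPolynomial.X (i, x) * MvPolynomial.X (j, y)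
    - MvPolynomial.C (Sp g x y * Sp g i j) * MvPolynomial.X (k, x) * MvPolynomial.X (l, y))

theorem eval_spol (i j k l : Fin g ⊕ Fin g) (X : Matrix (Fin g ⊕ Fin g) (Fin g ⊕ Fin g) ℂ) :
    MvPolynomial.eval (fun b => X b.1 b.2) (spol i j k l) =
      (X * Sp g * Xᵀ) i j * Sp g k l - (X * Sp g * Xᵀ) k l * Sp g i j := by
  have h1 : ∀ i j, (X * Sp g * Xᵀ) i j = ∑ x, ∑ y, Sp g x y * X i x * X j y := by
    intro i j
    rw [Matrix.mul_apply, Finset.sum_comm]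
    refine Finset.sum_congr rfl fun y _ => ?_
    rw [Matrix.mul_apply, Finset.sum_mul]
    refine Finset.sum_congr rfl fun x _ => ?_
    rw [Matrix.transpose_apply]
    ring
  unfold spol
  simp only [map_sum, map_sub, map_mul, MvPolynomial.eval_C, MvPolynomial.eval_X]
  rw [h1, h1, Finset.sum_mul, Finset.sum_mul, ← Finset.sum_sub_distrib]
  refine Finset.sum_congr rfl fun x _ => ?_
  rw [Finset.sum_mul, Finset.sum_mul, ← Finset.sum_sub_distrib]
  refine Finset.sum_congr rfl fun y _ => ?_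
  ring

theorem coeff_spol {K : Subfield ℂ} (i j k l : Fin g ⊕ Fin g) (m) :
    (spol i j k l).coeff m ∈ K := by
  refine coeff_range ?_ m
  unfold spol
  exact sum_mem fun x _ => sum_mem fun y _ => sub_mem
    (mul_mem (mul_mem (C_range (K.mul_mem (Sp_mem K g _ _) (Sp_mem K g _ _))) (X_range _))
      (X_range _))
    (mul_mem (mul_mem (C_range (K.mul_mem (Sp_mem K g _ _) (Sp_mem K g _ _))) (X_range _))
      (X_range _))

theorem sim_iff (hg : 0 < g) (X : Matrix (Fin g ⊕ Fin g) (Fin g ⊕ Fin g) ℂ) :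
    Sim X ↔ (∃ Y : Matrix (Fin g ⊕ Fin g) (Fin g ⊕ Fin g) ℂ, X * Y = 1 ∧ Y * X = 1) ∧
      ∀ i j k l, MvPolynomial.eval (fun b => X b.1 b.2) (spol i j k l) = 0 := by
  constructor
  · rintro ⟨c, hc, h1⟩
    refine ⟨⟨iE X c, E_iE h1 hc, iE_E h1 hc⟩, fun i j k l => ?_⟩
    rw [eval_spol, h1]
    simp only [Matrix.smul_apply, smul_eq_mul]
    ring
  · rintro ⟨⟨Y, h1, h2⟩, h3⟩
    let i0 : Fin g ⊕ Fin g := Sum.inl ⟨0, hg⟩
    let j0 : Fin g ⊕ Fin g := Sum.inr ⟨0, hg⟩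
    have h4 : Sp g i0 j0 = 1 := by
      simp [Sp, i0, j0]
    have h5 : X * Sp g * Xᵀ = ((X * Sp g * Xᵀ) i0 j0) • Sp g := by
      ext i j
      have h6 := h3 i j i0 j0
      rw [eval_spol, h4, mul_one, sub_eq_zero] at h6
      rw [Matrix.smul_apply, smul_eq_mul]
      exact h6
    refine ⟨(X * Sp g * Xᵀ) i0 j0, fun h0 => ?_, h5⟩
    rw [h0, zero_smul] at h5
    have h6 : Yᵀ = Yᵀ * 1 := (Matrix.mul_one _).symm
    have h7 : Sp g = Y * (X * Sp g * Xᵀ) * Yᵀ := by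
      have h8 : Xᵀ * Yᵀ = 1 := by rw [← Matrix.transpose_mul, h2, Matrix.transpose_one]
      calc Sp g = (Y * X) * Sp g * (Xᵀ * Yᵀ) := by
            rw [h2, h8, Matrix.one_mul, Matrix.mul_one]
        _ = _ := by simp only [Matrix.mul_assoc]
    rw [h5, Matrix.mul_zero, Matrix.zero_mul] at h7
    rw [h7] at h4
    simp at h4

/-- The symplectic similitudes form a torsor over every subfield. -/
theorem tors_sim (hg : 0 < g) (K : Subfield ℂ) :
    Tors K {X : Matrix (Fin g ⊕ Fin g) (Fin g ⊕ Fin g) ℂ | Sim X} := by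
  refine ⟨fun X hX => ((sim_iff hg X).1 hX).1, ?_,
    {p | ∃ i j k l, p = spol i j k l}, ?_, fun X => ?_⟩
  · rintro X hX Y ⟨c, hc, hY⟩ Z hZ Y' h1 h2
    have h3 : Y' = iE Y c := by
      calc Y' = Y' * (Y * iE Y c) := by rw [E_iE hY hc, Matrix.mul_one]
        _ = _ := by rw [← Matrix.mul_assoc, h2, Matrix.one_mul]
    rw [h3]
    exact (Sim.mul hX (Sim.iE hc hY)).mul hZ
  · rintro _ ⟨i, j, k, l, rfl⟩ m
    exact coeff_spol i j k l m
  · change Sim X ↔ _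
    rw [sim_iff hg]
    refine and_congr Iff.rfl ⟨?_, fun h i j k l => h _ ⟨i, j, k, l, rfl⟩⟩
    rintro h _ ⟨i, j, k, l, rfl⟩
    exact h i j k l

/-- **The smallest torsor.** -/
theorem main {D : ℕ} (hg : 0 < g) (F : Subfield ℂ) (hF : ∀ x ∈ F, IsAlgebraic ℚ x)
    (K : IntermediateField F ℂ) [FiniteDimensional F K] (hK : Module.finrank F K ≤ D)
    {E : Matrix (Fin g ⊕ Fin g) (Fin g ⊕ Fin g) ℂ} {lam : ℂ} (hE : E * Sp g * Eᵀ = lam • Sp g)
    (hlam : ¬ IsAlgebraic ℚ lam)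
    (hrat : ∃ x y z w, E z w ≠ 0 ∧ ¬ IsAlgebraic ℚ (E x y / E z w))
    (hNo : NoRel F (2 * D) E) :
    {X | ∀ T, Tors K.toSubfield T → E ∈ T → X ∈ T} = {X | Sim X} := by
  have hKalg : ∀ x ∈ K.toSubfield, IsAlgebraic ℚ x := by
    intro x hx
    have _ : Algebra.IsAlgebraic ℚ F := ⟨fun y => by
      have := hF y y.2
      exact (isAlgebraic_algebraMap_iff (A := ℂ) (S := F) (R := ℚ) Subtype.val_injective).1 this⟩
    have h1 : IsAlgebraic F (⟨x, hx⟩ : K) := Algebra.IsAlgebraic.isAlgebraic _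
    have h2 : IsAlgebraic F x := h1.algebraMap
    exact h2.restrictScalars ℚ
  have h0 : lam ≠ 0 := by
    rintro rfl
    exact hlam isAlgebraic_zero
  ext X
  constructor
  · intro h
    exact h _ (tors_sim hg _) ⟨lam, h0, hE⟩
  · intro hX T hT hET
    exact crit hg hKalg hE hlam hrat (norel_of_norel K hK hNo) hT hET hX

end Pool.Agent.TH119.TO
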